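import Pool.Agent.H8.AV3.Defs2

/-!
# Three-descent: identities for the Jacobian of a ternary cubic form
-/

set_option autoImplicit false

namespace Pool.AV3

open Polynomial Matrix Pool.AVR

section Ring

variable {R : Type} [CommRing R]

theorem Jc_sg (τ A D E F G : R) (hτ : 2 * τ = 1) : Jc τ (sg A D E F G) = fsg τ A D E F G := by
  simp only [Jc, sg, fsg, jb4, jb6, Matrix.cons_val, Prod.mk.injEq]
  refine ⟨by ring, ?_, ?_⟩
  · linear_combination (D * F - A ^ 2 * G) * hτ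
  · linear_combination (D ^ 2 * G - A ^ 2 * E * G) * (2 * τ + 1) * hτ

theorem Jc_FO (τ a b c : R) (hτ : 2 * τ = 1) : Jc τ (FO a b c) = (a, b, c) := by
  simp only [Jc, FO, jb4, jb6, Matrix.cons_val, Prod.mk.injEq]
  refine ⟨by ring, ?_, ?_⟩
  · linear_combination b * hτ
  · linear_combination c * (2 * τ + 1) * hτ

theorem Jc_FP (τ a b c x y : R) (hτ : 2 * τ = 1) (h : y ^ 2 = x ^ 3 + a * x ^ 2 + b * x + c) :
    Jc τ (FP a b x y) = (a, b, c) := by
  simp only [Jc, FP, jb4, jb6, Matrix.cons_val, Prod.mk.injEq]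
  refine ⟨by ring, ?_, ?_⟩
  · linear_combination b * hτ
  · linear_combination c * (2 * τ + 1) * hτ + 4 * τ ^ 2 * h

theorem Jc_smul (τ r : R) (c : Fin 10 → R) :
    Jc τ (r • c) = (r ^ 2 * (Jc τ c).1, r ^ 4 * (Jc τ c).2.1, r ^ 6 * (Jc τ c).2.2) := by
  simp only [Jc, jb4, jb6, Pi.smul_apply, smul_eq_mul, Prod.mk.injEq]
  refine ⟨by ring, by ring, by ring⟩

theorem sh_zero (f : R × R × R) : sh 0 f = f := by
  obtain ⟨a, b, c⟩ := f
  simp only [sh, Prod.mk.injEq]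
  refine ⟨by ring, by ring, by ring⟩

theorem sh_sh (η ε : R) (f : R × R × R) : sh η (sh ε f) = sh (η + ε) f := by
  obtain ⟨a, b, c⟩ := f
  simp only [sh, Prod.mk.injEq]
  refine ⟨by ring, by ring, by ring⟩

theorem dsc_sh (η : R) (f : R × R × R) : dsc (sh η f) = dsc f := by
  obtain ⟨a, b, c⟩ := f
  simp only [sh, dsc, disc]
  ring

/-- The quadratic part of the first covariant. -/
def jq (c : Fin 10 → R) : R := c 1 * c 8 + c 2 * c 7 + c 3 * c 5

theorem Jc_aux (τ η : R) (c c' : Fin 10 → R) (hτ : 2 * τ = 1)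
    (h1 : 4 * jq c' - c' 4 ^ 2 = 4 * jq c - c 4 ^ 2 - 12 * η)
    (h4 : jb4 c' = jb4 c + (c 4 ^ 2 - 4 * jq c) * η + 6 * η ^ 2)
    (h6 : jb6 c' = jb6 c + 2 * jb4 c * η + (c 4 ^ 2 - 4 * jq c) * η ^ 2 + 4 * η ^ 3) :
    Jc τ c' = sh η (Jc τ c) := by
  have e1 : c' 1 * c' 8 + c' 2 * c' 7 + c' 3 * c' 5 = jq c' := rfl
  have e2 : c 1 * c 8 + c 2 * c 7 + c 3 * c 5 = jq c := rfl
  simp only [Jc, sh, Prod.mk.injEq, h4, h6, e1, e2]
  have h2 : 4 * τ ^ 2 = 1 := by linear_combination (2 * τ + 1) * hτ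
  refine ⟨?_, ?_, ?_⟩
  · linear_combination (-τ ^ 2) * h1 + (jq c' - jq c + 3 * η) * h2
  · linear_combination (-(τ * c 4 ^ 2 * η + 2 * jq c * η - 3 * η ^ 2)) * hτ
  · linear_combination (τ * jb4 c * η + (η ^ 3 - jq c * η ^ 2) * (2 * τ + 1)) * hτ

/-- Elementary matrices. -/
def el01 (l : R) : Matrix (Fin 3) (Fin 3) R := !![1, l, 0; 0, 1, 0; 0, 0, 1]

theorem Jc_el01 (τ l : R) (c : Fin 10 → R) (hτ : 2 * τ = 1) :
    Jc τ (tsub c (el01 l)) =
      sh (-(l * (c 1 * c 5 + c 0 * c 8)) - 2 * l ^ 2 * c 0 * c 5) (Jc τ c) := by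
  apply Jc_aux τ _ _ _ hτ
  · simp only [el01, jq, tsub, tev, tder, Matrix.cons_val, Matrix.of_apply, Matrix.cons_val']
    ring
  · simp only [el01, jq, jb4, tsub, tev, tder, Matrix.cons_val, Matrix.of_apply, Matrix.cons_val']
    ring
  · simp only [el01, jq, jb4, jb6, tsub, tev, tder, Matrix.cons_val, Matrix.of_apply,
      Matrix.cons_val']
    ring

/-- The swap of the first two variables. -/
def sw01 (R : Type) [CommRing R] : Matrix (Fin 3) (Fin 3) R := !![0, 1, 0; 1, 0, 0; 0, 0, 1]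

/-- The swap of the last two variables. -/
def sw12 (R : Type) [CommRing R] : Matrix (Fin 3) (Fin 3) R := !![1, 0, 0; 0, 0, 1; 0, 1, 0]

/-- Scaling of the first variable. -/
def dg0 (u : R) : Matrix (Fin 3) (Fin 3) R := !![u, 0, 0; 0, 1, 0; 0, 0, 1]

theorem Jc_sw01 (τ : R) (c : Fin 10 → R) : Jc τ (tsub c (sw01 R)) = Jc τ c := by
  simp only [Jc, sw01, jb4, jb6, tsub, tev, tder, Matrix.cons_val, Matrix.of_apply,
    Matrix.cons_val', Prod.mk.injEq]
  refine ⟨by ring, by ring, by ring⟩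

theorem Jc_sw12 (τ : R) (c : Fin 10 → R) : Jc τ (tsub c (sw12 R)) = Jc τ c := by
  simp only [Jc, sw12, jb4, jb6, tsub, tev, tder, Matrix.cons_val, Matrix.of_apply,
    Matrix.cons_val', Prod.mk.injEq]
  refine ⟨by ring, by ring, by ring⟩

theorem Jc_dg0 (τ u : R) (c : Fin 10 → R) : Jc τ (tsub c (dg0 u)) =
    (u ^ 2 * (Jc τ c).1, u ^ 4 * (Jc τ c).2.1, u ^ 6 * (Jc τ c).2.2) := by
  simp only [Jc, dg0, jb4, jb6, tsub, tev, tder, Matrix.cons_val, Matrix.of_apply,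
    Matrix.cons_val', Prod.mk.injEq]
  refine ⟨by ring, by ring, by ring⟩

/-- Translation of the form of the point at infinity. -/
theorem Eqv_FO_sh (a b c η : R) : Eqv !![1, 0, η; 0, 1, 0; 0, 0, 1] (FO a b c)
    (FO (sh η (a, b, c)).1 (sh η (a, b, c)).2.1 (sh η (a, b, c)).2.2) := by
  have hd : (!![1, 0, η; 0, 1, 0; 0, 0, 1] : Matrix (Fin 3) (Fin 3) R).det = 1 := by
    rw [Matrix.det_fin_three]
    simp
  refine ⟨by rw [hd]; exact isUnit_one, ?_⟩
  rw [hd, one_smul]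
  funext i
  fin_cases i <;>
  simp only [sh, FO, tsub, tev, tder, Matrix.cons_val, Matrix.of_apply, Matrix.cons_val',
    Fin.zero_eta, Fin.mk_one, Fin.reduceFinMk] <;> ring

/-- Translation of the form of a point. -/
theorem Eqv_FP_sh (a b x y η : R) : Eqv (uni 1 η) (FP a b x y)
    (FP (a + 3 * η) (b + 2 * a * η + 3 * η ^ 2) (x - η) y) := by
  have hd : (uni 1 η : Matrix (Fin 3) (Fin 3) R).det = 1 := by
    rw [uni, Matrix.det_fin_three]
    simp
  refine ⟨by rw [hd]; exact isUnit_one, ?_⟩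
  rw [hd, one_smul]
  funext i
  fin_cases i <;>
  simp only [uni, FP, tsub, tev, tder, Matrix.cons_val, Matrix.of_apply, Matrix.cons_val',
    Fin.zero_eta, Fin.mk_one, Fin.reduceFinMk] <;> ring

end Ring

section Field

variable {K : Type} [Field K]

/-- Scaling of the form of the point at infinity. -/
theorem Eqv_FO_scale (a b c t : K) (ht : t ≠ 0) :
    Eqv !![t ^ 2, 0, 0; 0, t ^ 3, 0; 0, 0, 1] (FO a b c)
      (t • FO (a / t ^ 2) (b / t ^ 4) (c / t ^ 6)) := by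
  have hd : (!![t ^ 2, 0, 0; 0, t ^ 3, 0; 0, 0, 1] : Matrix (Fin 3) (Fin 3) K).det = t ^ 5 := by
    rw [Matrix.det_fin_three]
    simp
    ring
  refine ⟨by rw [hd]; exact (isUnit_iff_ne_zero.2 (pow_ne_zero _ ht)), ?_⟩
  rw [hd]
  funext i
  fin_cases i <;>
  simp only [FO, tsub, tev, tder, Matrix.cons_val, Matrix.of_apply, Matrix.cons_val',
    Fin.zero_eta, Fin.mk_one, Fin.reduceFinMk, Pi.smul_apply, smul_eq_mul] <;> field_simp <;> ring

end Field

end Pool.AV3
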