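import Pool.Agent.H8.AV3.Stmts4
import Pool.Agent.H14.AVR.Stmts4

/-!
# Three-descent over `F(t)`, stage 3: definitions, and the local theory for the lower bound
-/

set_option autoImplicit false

namespace Pool.AV3

open Polynomial Matrix Pool.AVR

section Defs

variable {F : Type} [Field F]

/-- The forms of the degree type `(α, β)` in the class of `c₀`. -/
def ClS (n α β : ℕ) (f : F[X] × F[X] × F[X]) (c₀ : Fin 10 → RatFunc F) :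
    Set (Fin 10 → F[X]) :=
  {c | c ∈ VJ n (dv α β) f ∧ ∃ g, Eqv g c₀ (mp c)}

/-- A form of the trivial class. -/
def Tri (f : F[X] × F[X] × F[X]) (c : Fin 10 → F[X]) : Prop :=
  ∃ g, Eqv g (FO (AVS.kf f).1 (AVS.kf f).2.1 (AVS.kf f).2.2) (mp c)

/-- Curves whose discriminant is not divisible by high powers of the primes of `S` (and of the
prime at infinity), and not by squares of other primes. -/
def GdF (n N : ℕ) (S : Finset F[X]) : Set (F[X] × F[X] × F[X]) :=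
  {f | f ∈ El F n ∧ (∀ P ∈ S, ¬ P ^ N ∣ dsc f) ∧ ¬ X ^ N ∣ dsc (AVS.finf n f) ∧
    ∀ P : F[X], P.Monic → Irreducible P → P ∉ S → ¬ P ^ 2 ∣ dsc f}

/-- The corresponding forms. -/
def GdC (n α β N : ℕ) (S : Finset F[X]) : Set (Fin 10 → F[X]) :=
  {c | c ∈ Vd n (dv α β) ∧ (∀ P ∈ S, ¬ P ^ N ∣ dsc (Jc (hf F) c)) ∧
    ¬ X ^ N ∣ dsc (Jc (hf F) (cinf n (dv α β) c)) ∧
    (∀ P : F[X], P.Monic → Irreducible P → P ∉ S → ¬ P ^ 2 ∣ dsc (Jc (hf F) c)) ∧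
    ((3 : F) ≠ 0 ∨ (Jc (hf F) c).1 ≠ 0)}

end Defs

/-- The discriminant as a polynomial in the coefficient of `MXZ`. -/
noncomputable def DW {R : Type} [CommRing R] (τ : R) (c : Fin 10 → R) : R[X] :=
  dsc (Jc (C τ) (Function.update (fun i => C (c i)) 4 X))

/-- FCT: divisibility of the discriminant. -/
def FCTStmt : Prop :=
  ∀ (R : Type) [CommRing R] (τ π : R), 2 * τ = 1 →
    (∀ c : Fin 10 → R, π ^ 2 ∣ c 0 → π ∣ c 1 → π ∣ c 2 → π ^ 2 ∣ dsc (Jc τ c)) ∧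
    (∀ c : Fin 10 → R, π ∣ c 0 → π ∣ c 1 → π ∣ c 3 → π ∣ c 6 → π ^ 2 ∣ dsc (Jc τ c)) ∧
    (∀ c : Fin 10 → R, (∀ i : Fin 10, (i : ℕ) < 6 → π ∣ c i) → π ^ 2 ∣ dsc (Jc τ c)) ∧
    ∀ c : Fin 10 → R, c 1 = 0 → c 3 = 0 → c 6 = 0 → (c 0 * c 7) ^ 2 ∣ dsc (Jc τ c)

/-- SOL3: a form with a good point is the form of a point. -/
def SOL3Stmt : Prop :=
  ∀ (K : Type) [Field K], (2 : K) ≠ 0 → ∀ (f : K × K × K) (c : Fin 10 → K) (v : Fin 3 → K)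
    (η : K), dsc f ≠ 0 → Jc (2 : K)⁻¹ c = sh η f → Good c v → Cls f c

/-- HNS3: good points lift, in infinitely many ways. -/
def HNS3Stmt : Prop :=
  ∀ (L : Type) [Field L] (O : ValuationSubring L) (π : L), AVS.Loc L O π →
    ∀ (c : Fin 10 → L) (v : Fin 3 → L), (∀ i, c i ∈ O) → GdI (O : Set L) π c v →
    ∀ B : Set (Fin 3 → L), B.Finite → ∃ x : Fin 3 → L, (∀ i, x i ∈ O) ∧
      (∀ i, (x i - v i) / π ∈ O) ∧ tev c x = 0 ∧ Good c x ∧ ∀ y ∈ B, ∀ r : L, x ≠ r • y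

/-- NFL3: normal form at an exact good point. -/
def NFL3Stmt : Prop :=
  ∀ (L : Type) [Field L] (O : ValuationSubring L) (π : L), AVS.Loc L O π →
    ∀ (c : Fin 10 → L) (v : Fin 3 → L), (∀ i, c i ∈ O) → GdI (O : Set L) π c v →
    tev c v = 0 → ∃ (g : Matrix (Fin 3) (Fin 3) L) (A D E F G : L), AVS.GI (O : Set L) g ∧
      g *ᵥ (e1 : Fin 3 → L) = v ∧ A ∈ O ∧ D ∈ O ∧ E ∈ O ∧ F ∈ O ∧ G ∈ O ∧
      Eqv g c (sg A D E F G) ∧ (AVS.UI (O : Set L) A ∨ AVS.UI (O : Set L) D)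

/-- UNI3: uniqueness of the lattice in which a given point is good (normal forms). -/
def UNI3Stmt : Prop :=
  ∀ (L : Type) [Field L] (O : ValuationSubring L) (π : L), AVS.Loc L O π →
    ∀ (A D E F G A' D' E' F' G' s : L) (h : Matrix (Fin 3) (Fin 3) L),
    A ∈ O → D ∈ O → E ∈ O → F ∈ O → G ∈ O → A' ∈ O → D' ∈ O → E' ∈ O → F' ∈ O → G' ∈ O →
    (AVS.UI (O : Set L) A ∨ AVS.UI (O : Set L) D) →
    (AVS.UI (O : Set L) A' ∨ AVS.UI (O : Set L) D') →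
    Eqv h (sg A D E F G) (sg A' D' E' F' G') → h *ᵥ (e1 : Fin 3 → L) = s • (e1 : Fin 3 → L) →
    ∃ r : L, r ≠ 0 ∧ AVS.GI (O : Set L) (r • h)

/-- UNE: uniqueness of the lattice in which a given point is good. -/
def UNEStmt : Prop :=
  ∀ (L : Type) [Field L] (O : ValuationSubring L) (π : L), AVS.Loc L O π →
    ∀ (c : Fin 10 → L) (g g' : Matrix (Fin 3) (Fin 3) L) (v v' : Fin 3 → L) (r : L),
    KP3 (O : Set L) π c g v → KP3 (O : Set L) π c g' v' → tev c (g *ᵥ v) = 0 → r ≠ 0 →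
    g' *ᵥ v' = r • (g *ᵥ v) → Eq3 (O : Set L) π g v g' v'

/-- LTN: the lattice of a point of the cubic, and close points. -/
def LTNStmt : Prop :=
  ∀ (L : Type) [Field L] (O : ValuationSubring L) (π : L), AVS.Loc L O π →
    ∀ a b c x y : L, a ∈ O → b ∈ O → c ∈ O → OnC a b c x y →
    ∃ (g : Matrix (Fin 3) (Fin 3) L) (v : Fin 3 → L) (s : L),
      KP3 (O : Set L) π (FP a b x y) g v ∧ s ≠ 0 ∧ g *ᵥ v = s • (e1 : Fin 3 → L) ∧
      ∀ X Y M : L, OnC a b c X Y → X ∉ O → X ≠ x → M * (X - x) = Y + y →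
        ∃ (z : Fin 3 → L) (r t : L), r ≠ 0 ∧ g *ᵥ z = r • ![M, X, 1] ∧
          AVS.UI (O : Set L) t ∧ ∀ i, (z i - t * v i) / π ∈ O

/-- LCL3: not more pairs (lattice, good point). -/
def LCL3Stmt : Prop :=
  ∀ (L : Type) [Field L] (O : ValuationSubring L) (π : L), AVS.Loc L O π →
    ∀ (N : ℕ) (a b c : O), disc a b c ∉ (IsLocalRing.maximalIdeal O) ^ N →
    ∀ c₀ : Fin 10 → L, Cls ((a : L), (b : L), (c : L)) c₀ →
    ∀ (M : ℕ) (g : Fin M → Matrix (Fin 3) (Fin 3) L) (v : Fin M → Fin 3 → L),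
      (∀ i, KP3 (O : Set L) π c₀ (g i) (v i)) →
      (∀ i j, i ≠ j → ¬ Eq3 (O : Set L) π (g i) (v i) (g j) (v j)) →
      M * AVS.kap O ^ (N - 1) ≤
        AVS.nE (AVS.ON O N) (Ideal.Quotient.mk _ a) (Ideal.Quotient.mk _ b)
          (Ideal.Quotient.mk _ c) + AVS.kap O ^ (N - 1)

/-- TRB3: comparison with the completion. -/
def TRB3Stmt : Prop :=
  ∀ (F : Type) [Field F] (I : Set (RatFunc F)) (ϖ : RatFunc F) (L : Type) [Field L]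
    (O : ValuationSubring L) (ι : RatFunc F →+* L), AVS.IsComp F I ϖ L O ι →
    (∀ (c : Fin 10 → RatFunc F) (v : Fin 3 → RatFunc F), GdI I ϖ c v →
      GdI (O : Set L) (ι ϖ) (fun i => ι (c i)) (fun i => ι (v i))) ∧
    (∀ (c : Fin 10 → RatFunc F) (g : Matrix (Fin 3) (Fin 3) (RatFunc F))
      (v : Fin 3 → RatFunc F), KP3 I ϖ c g v →
      KP3 (O : Set L) (ι ϖ) (fun i => ι (c i)) (g.map ι) (fun i => ι (v i))) ∧
    ∀ (g g' : Matrix (Fin 3) (Fin 3) (RatFunc F)) (v v' : Fin 3 → RatFunc F),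
      g.det ≠ 0 → g'.det ≠ 0 → (∀ i, v i ∈ I) → (∀ i, v' i ∈ I) →
      Eq3 (O : Set L) (ι ϖ) (g.map ι) (fun i => ι (v i)) (g'.map ι) (fun i => ι (v' i)) →
      Eq3 I ϖ g v g' v'

/-- LLG3: not more pairs (lattice, good point), over `F(t)`. -/
def LLG3Stmt : Prop :=
  ∀ (F : Type) [Field F] (I : Set (RatFunc F)) (ϖ : RatFunc F) (L : Type) [Field L]
    (O : ValuationSubring L) (ι : RatFunc F →+* L), AVS.IsComp F I ϖ L O ι →
    ∀ (N : ℕ) (a b c : O), disc a b c ∉ (IsLocalRing.maximalIdeal O) ^ N →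
    ∀ c₀ : Fin 10 → RatFunc F, Cls ((a : L), (b : L), (c : L)) (fun i => ι (c₀ i)) →
    ∀ (M : ℕ) (g : Fin M → Matrix (Fin 3) (Fin 3) (RatFunc F))
      (v : Fin M → Fin 3 → RatFunc F), (∀ i, KP3 I ϖ c₀ (g i) (v i)) →
      (∀ i j, i ≠ j → ¬ Eq3 I ϖ (g i) (v i) (g j) (v j)) →
      M * AVS.kap O ^ (N - 1) ≤
        AVS.nE (AVS.ON O N) (Ideal.Quotient.mk _ a) (Ideal.Quotient.mk _ b)
          (Ideal.Quotient.mk _ c) + AVS.kap O ^ (N - 1)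

/-- ARC: elements of `F(t)` and their valuations. -/
def ARCStmt : Prop :=
  (∀ (F : Type) [Field F] (P : F[X]), Irreducible P → ∀ x : RatFunc F, x ≠ 0 →
    ∃ n : ℤ, AVS.UI (AVS.IP P) (x / algebraMap F[X] (RatFunc F) P ^ n)) ∧
  ∀ (F : Type) [Field F], ∀ x : RatFunc F, x ≠ 0 →
    ∃ n : ℤ, AVS.UI (AVS.Iinf F) (x / ((RatFunc.X : RatFunc F)⁻¹) ^ n)

/-- SNF3: Smith normal form. -/
def SNF3Stmt : Prop :=
  ∀ (K : Type) [Field K] (I : Set K) (π : K), Dv I π →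
    (∀ x : K, x ≠ 0 → ∃ n : ℤ, AVS.UI I (x / π ^ n)) →
    ∀ g : Matrix (Fin 3) (Fin 3) K, g.det ≠ 0 →
    ∃ (k₁ k₂ : Matrix (Fin 3) (Fin 3) K) (n : ℤ) (a b : ℕ), AVS.GI I k₁ ∧ AVS.GI I k₂ ∧
      a ≤ b ∧ g = π ^ n • (k₁ * Matrix.diagonal ![1, π ^ a, π ^ b] * k₂)

/-- UNQ3: uniqueness of the lattice for discriminants of valuation at most one. -/
def UNQ3Stmt : Prop :=
  ∀ (K : Type) [Field K] (I : Set K) (π : K), Dv I π →
    (∀ x : K, x ≠ 0 → ∃ n : ℤ, AVS.UI I (x / π ^ n)) → (2 : K) ≠ 0 → (2 : K)⁻¹ ∈ I →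
    ∀ (c c' : Fin 10 → K) (g : Matrix (Fin 3) (Fin 3) K), (∀ i, c i ∈ I) → (∀ i, c' i ∈ I) →
      Eqv g c c' → dsc (Jc (2 : K)⁻¹ c) / π ^ 2 ∉ I → ∃ r : K, r ≠ 0 ∧ AVS.GI I (r • g)

/-- RDG: good points modulo `P` and at infinity. -/
def RDGStmt : Prop :=
  (∀ (F : Type) [Field F] (P : F[X]), P.Monic → Irreducible P → ∀ (c : Fin 10 → F[X])
    (z : Fin 3 → F[X]), Good (md P c) (fun i => AdjoinRoot.mk P (z i)) →
      GdI (AVS.IP P) (algebraMap F[X] (RatFunc F) P) (mp c) (pv z)) ∧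
  ∀ (F : Type) [Field F] (n : ℕ) (d : Fin 3 → ℤ) (c : Fin 10 → F[X]), c ∈ Vd n d →
    ∀ z : Fin 3 → F, Good (md X (cinf n d c)) (fun i => AdjoinRoot.mk X (C (z i))) →
      GdI (AVS.Iinf F) (RatFunc.X)⁻¹ (cI n d c) (pv fun i => C (z i))

/-- LLP3: not more pairs at a finite place. -/
def LLP3Stmt : Prop :=
  ∀ (F : Type) [Field F] [Finite F], (2 : F) ≠ 0 → ∀ (f : F[X] × F[X] × F[X]),
    ∀ c ∈ SelSet f, ∀ P : F[X], P.Monic → Irreducible P → ∀ N : ℕ, 1 ≤ N → ¬ P ^ N ∣ dsc f →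
    ∀ (M : ℕ) (g : Fin M → Matrix (Fin 3) (Fin 3) (RatFunc F)) (v : Fin M → Fin 3 → RatFunc F),
      (∀ i, KP3 (AVS.IP P) (algebraMap F[X] (RatFunc F) P) c (g i) (v i)) →
      (∀ i j, i ≠ j →
        ¬ Eq3 (AVS.IP P) (algebraMap F[X] (RatFunc F) P) (g i) (v i) (g j) (v j)) →
      ((Nat.card (AdjoinRoot P) : ℝ) - 1) * M ≤ Bw P N f

/-- LLI3: not more pairs at infinity. -/
def LLI3Stmt : Prop :=
  ∀ (F : Type) [Field F] [Finite F], (2 : F) ≠ 0 → ∀ (n : ℕ) (f : F[X] × F[X] × F[X]),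
    f ∈ Fam F n → ∀ c ∈ SelSet f, ∀ N : ℕ, 1 ≤ N → ¬ X ^ N ∣ dsc (AVS.finf n f) →
    ∀ (M : ℕ) (g : Fin M → Matrix (Fin 3) (Fin 3) (RatFunc F)) (v : Fin M → Fin 3 → RatFunc F),
      (∀ i, KP3 (AVS.Iinf F) (RatFunc.X)⁻¹ (((RatFunc.X : RatFunc F) ^ n)⁻¹ • c) (g i)
        (v i)) →
      (∀ i j, i ≠ j → ¬ Eq3 (AVS.Iinf F) (RatFunc.X)⁻¹ (g i) (v i) (g j) (v j)) →
      ((Nat.card (AdjoinRoot (X : F[X])) : ℝ) - 1) * M ≤ Bw X N (AVS.finf n f)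

/-- MDL: the number of good points for discriminants of valuation at most one. -/
def MDLStmt : Prop :=
  ∀ (F : Type) [Field F] [Finite F], (2 : F) ≠ 0 → ∀ P : F[X], P.Monic → Irreducible P →
    ∀ c : Fin 10 → F[X], ¬ P ^ 2 ∣ dsc (Jc (hf F) c) →
      (gdk (md P c) : ℝ) ≤ Bw P 2 (Jc (hf F) c)

end Pool.AV3
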