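import Pool.Agent.H8.AV3.Defs

/-!
# Three-descent: basic lemmas on ternary cubic forms
-/

set_option autoImplicit false

namespace Pool.AV3

open Polynomial Matrix Pool.AVR

section Ring

variable {R : Type} [CommRing R]

theorem mulVec3 (g : Matrix (Fin 3) (Fin 3) R) (v : Fin 3 → R) (i : Fin 3) :
    (g *ᵥ v) i = g i 0 * v 0 + g i 1 * v 1 + g i 2 * v 2 := by
  simp only [Matrix.mulVec, dotProduct, Fin.sum_univ_three]

theorem tev_tsub (c : Fin 10 → R) (g : Matrix (Fin 3) (Fin 3) R) (v : Fin 3 → R) :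
    tev (tsub c g) v = tev c (g *ᵥ v) := by
  simp only [tev, tsub, tder, mulVec3, Matrix.cons_val]
  ring

theorem tder_tsub (c : Fin 10 → R) (g : Matrix (Fin 3) (Fin 3) R) (v w : Fin 3 → R) :
    tder (tsub c g) v w = tder c (g *ᵥ v) (g *ᵥ w) := by
  simp only [tev, tsub, tder, mulVec3, Matrix.cons_val]
  ring

theorem taylor (c : Fin 10 → R) (s t : R) (v w : Fin 3 → R) :
    tev c (s • v + t • w) =
      s ^ 3 * tev c v + s ^ 2 * t * tder c v w + s * t ^ 2 * tder c w v + t ^ 3 * tev c w := by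
  simp only [tev, tder, Pi.add_apply, Pi.smul_apply, smul_eq_mul]
  ring

theorem tev_smul_form (r : R) (c : Fin 10 → R) (v : Fin 3 → R) :
    tev (r • c) v = r * tev c v := by
  simp only [tev, Pi.smul_apply, smul_eq_mul]
  ring

theorem tder_smul_form (r : R) (c : Fin 10 → R) (v w : Fin 3 → R) :
    tder (r • c) v w = r * tder c v w := by
  simp only [tder, Pi.smul_apply, smul_eq_mul]
  ring

theorem tev_smul_vec (r : R) (c : Fin 10 → R) (v : Fin 3 → R) :
    tev c (r • v) = r ^ 3 * tev c v := by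
  simp only [tev, Pi.smul_apply, smul_eq_mul]
  ring

theorem tder_smul_left (r : R) (c : Fin 10 → R) (v w : Fin 3 → R) :
    tder c (r • v) w = r ^ 2 * tder c v w := by
  simp only [tder, Pi.smul_apply, smul_eq_mul]
  ring

theorem tder_smul_right (r : R) (c : Fin 10 → R) (v w : Fin 3 → R) :
    tder c v (r • w) = r * tder c v w := by
  simp only [tder, Pi.smul_apply, smul_eq_mul]
  ring

theorem tder_add_right (c : Fin 10 → R) (v w w' : Fin 3 → R) :
    tder c v (w + w') = tder c v w + tder c v w' := by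
  simp only [tder, Pi.add_apply]
  ring

theorem tder_self (c : Fin 10 → R) (v : Fin 3 → R) : tder c v v = 3 * tev c v := by
  simp only [tder, tev]
  ring

/-- Composition of substitutions. -/
theorem tsub_mul (c : Fin 10 → R) (g h : Matrix (Fin 3) (Fin 3) R) :
    tsub (tsub c g) h = tsub c (g * h) := by
  have hc : ∀ j, (g *ᵥ fun i => h i j) = fun i => (g * h) i j := by
    intro j
    funext i
    simp only [Matrix.mulVec, dotProduct, Matrix.mul_apply]
  have hs : ∀ j k, (g *ᵥ fun i => h i j + h i k) = fun i => (g * h) i j + (g * h) i k := by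
    intro j k
    funext i
    simp only [Matrix.mulVec, dotProduct, Matrix.mul_apply, mul_add, Finset.sum_add_distrib]
  conv_lhs => rw [tsub]
  conv_rhs => rw [tsub]
  simp only [tev_tsub, tder_tsub, hc, hs]

theorem tsub_smul_form (r : R) (c : Fin 10 → R) (g : Matrix (Fin 3) (Fin 3) R) :
    tsub (r • c) g = r • tsub c g := by
  funext i
  fin_cases i <;>
  simp [tsub, tev_smul_form, tder_smul_form, mul_sub]

theorem tsub_smul_mat (r : R) (c : Fin 10 → R) (g : Matrix (Fin 3) (Fin 3) R) :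
    tsub c (r • g) = r ^ 3 • tsub c g := by
  funext i
  fin_cases i <;>
  simp only [tsub, tev, tder, Matrix.smul_apply, Pi.smul_apply, smul_eq_mul, Fin.zero_eta,
    Fin.isValue, Matrix.cons_val, Fin.mk_one, Fin.reduceFinMk] <;> ring

theorem tsub_one (c : Fin 10 → R) : tsub c 1 = c := by
  funext i
  fin_cases i <;>
  simp [tsub, tev, tder]
  ring

end Ring

section Map

variable {R S : Type} [CommRing R] [CommRing S] (φ : R →+* S)

theorem map_tev (c : Fin 10 → R) (v : Fin 3 → R) :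
    φ (tev c v) = tev (fun i => φ (c i)) (fun i => φ (v i)) := by
  simp only [tev, map_add, map_mul, map_pow]

theorem map_tder (c : Fin 10 → R) (v w : Fin 3 → R) :
    φ (tder c v w) = tder (fun i => φ (c i)) (fun i => φ (v i)) (fun i => φ (w i)) := by
  simp only [tder, map_add, map_mul, map_pow, map_ofNat]

theorem map_tsub (c : Fin 10 → R) (g : Matrix (Fin 3) (Fin 3) R) :
    (fun i => φ (tsub c g i)) = tsub (fun i => φ (c i)) (g.map φ) := by
  funext i
  fin_cases i <;>
  simp [tsub, map_tev, map_tder]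

theorem Eqv.map {g : Matrix (Fin 3) (Fin 3) R} {c c' : Fin 10 → R} (h : Eqv g c c') :
    Eqv (g.map φ) (fun i => φ (c i)) (fun i => φ (c' i)) := by
  have hd : (g.map φ).det = φ g.det := by
    rw [RingHom.map_det]
    rfl
  refine ⟨?_, ?_⟩
  · rw [hd]
    exact h.1.map φ
  · rw [← map_tsub, h.2, hd]
    funext i
    simp

end Map

section Equiv

variable {R : Type} [CommRing R]

theorem Eqv.refl (c : Fin 10 → R) : Eqv 1 c c := by
  refine ⟨by simp, ?_⟩
  rw [tsub_one]
  simp

theorem Eqv.trans {g h : Matrix (Fin 3) (Fin 3) R} {c c' c'' : Fin 10 → R} (h1 : Eqv g c c')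
    (h2 : Eqv h c' c'') : Eqv (g * h) c c'' := by
  refine ⟨by rw [det_mul]; exact h1.1.mul h2.1, ?_⟩
  rw [← tsub_mul, h1.2, tsub_smul_form, h2.2, det_mul, smul_smul]

theorem Eqv.symm {g : Matrix (Fin 3) (Fin 3) R} {c c' : Fin 10 → R} (h : Eqv g c c') :
    Eqv g⁻¹ c' c := by
  have h0 : g * g⁻¹ = 1 := Matrix.mul_nonsing_inv g h.1
  have h1 : g.det * (g⁻¹).det = 1 := by
    rw [← det_mul, h0, det_one]
  refine ⟨IsUnit.of_mul_eq_one_right _ h1, ?_⟩
  have h2 : tsub (tsub c g) g⁻¹ = c := by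
    rw [tsub_mul, h0, tsub_one]
  rw [h.2, tsub_smul_form] at h2
  have h3 : (g⁻¹).det • g.det • tsub c' g⁻¹ = (g⁻¹).det • c := by
    rw [h2]
  rw [smul_smul, mul_comm, h1, one_smul] at h3
  exact h3

theorem Eqv.tev {g : Matrix (Fin 3) (Fin 3) R} {c c' : Fin 10 → R} (h : Eqv g c c')
    (v : Fin 3 → R) : tev c (g *ᵥ v) = g.det * Pool.AV3.tev c' v := by
  rw [← tev_tsub, h.2, tev_smul_form]

theorem Eqv.tder {g : Matrix (Fin 3) (Fin 3) R} {c c' : Fin 10 → R} (h : Eqv g c c')
    (v w : Fin 3 → R) : tder c (g *ᵥ v) (g *ᵥ w) = g.det * Pool.AV3.tder c' v w := by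
  rw [← tder_tsub, h.2, tder_smul_form]

/-- Scalars act trivially. -/
theorem Eqv.smul {g : Matrix (Fin 3) (Fin 3) R} {c c' : Fin 10 → R} (h : Eqv g c c') {r : R}
    (hr : IsUnit r) : Eqv (r • g) c c' := by
  have hd : (r • g).det = r ^ 3 * g.det := by
    rw [det_smul]
    simp
  refine ⟨by rw [hd]; exact (hr.pow 3).mul h.1, ?_⟩
  rw [tsub_smul_mat, h.2, hd, smul_smul]

end Equiv

section Field

variable {K : Type} [Field K]

/-- Over an infinite field a form is determined by its values. -/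
theorem tev_ext [Infinite K] {c c' : Fin 10 → K} (h : ∀ v, tev c v = tev c' v) : c = c' := by
  have inj : Function.Injective (![0, 1, 4, 2, 5, 8, 3, 6, 9, 12] : Fin 10 → ℕ) := by decide
  have key : (∑ j : Fin 10, Polynomial.C (c j - c' j) * X ^ ((![0, 1, 4, 2, 5, 8, 3, 6, 9, 12] :
      Fin 10 → ℕ) j) : K[X]) = 0 := by
    apply Polynomial.funext
    intro t
    have h1 := h ![1, t, t ^ 4]
    simp only [tev, Matrix.cons_val] at h1
    have h4 : ∀ p : Fin 10 → K[X], (∑ j, p j).eval t = ∑ j, (p j).eval t := fun p =>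
      Polynomial.eval_finsetSum _ _ _
    rw [h4]
    simp only [Polynomial.eval_mul, Polynomial.eval_C, Polynomial.eval_pow, Polynomial.eval_X,
      Polynomial.eval_zero, Fin.sum_univ_succ, Fin.sum_univ_zero]
    simp
    linear_combination h1
  funext i
  have h3 : (∑ j : Fin 10, Polynomial.C (c j - c' j) * X ^ ((![0, 1, 4, 2, 5, 8, 3, 6, 9,
      12] : Fin 10 → ℕ) j) : K[X]).coeff ((![0, 1, 4, 2, 5, 8, 3, 6, 9, 12] : Fin 10 → ℕ) i) = 0 := by
    rw [key, Polynomial.coeff_zero]
  rw [Polynomial.finsetSum_coeff] at h3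
  simp only [Polynomial.coeff_C_mul, Polynomial.coeff_X_pow] at h3
  rw [Finset.sum_eq_single i] at h3
  · simpa [sub_eq_zero] using h3
  · intro j _ hj
    rw [if_neg (fun h5 => hj (inj h5).symm), mul_zero]
  · intro hi
    exact absurd (Finset.mem_univ i) hi

theorem eqv_of_tev [Infinite K] {g : Matrix (Fin 3) (Fin 3) K} {c c' : Fin 10 → K}
    (hg : g.det ≠ 0) (h : ∀ v, tev c (g *ᵥ v) = g.det * tev c' v) : Eqv g c c' := by
  refine ⟨isUnit_iff_ne_zero.2 hg, tev_ext fun v => ?_⟩
  rw [tev_tsub, h, tev_smul_form]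

end Field

end Pool.AV3
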