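import Pool.Agent.H8.AV3.Stmts3

/-!
# Three-descent over `F(t)`, stage 2: finite rings, densities and averages
-/

set_option autoImplicit false

namespace Pool.AV3

open Polynomial Matrix Pool.AVR

/-- The setting of the mass formula: a finite local ring `R` with residue field `k`. -/
structure Res {R k : Type} [CommRing R] [Field k] (φ : R →+* k) (τ : R) : Prop where
  fin : Finite R
  sur : Function.Surjective φ
  loc : ∀ x : R, IsUnit x ∨ φ x = 0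
  half : 2 * τ = 1

/-- REG: general facts on finite local rings. -/
def REGStmt : Prop :=
  ∀ (R k : Type) [CommRing R] [Field k] (φ : R →+* k) (τ : R), Res φ τ →
    IsLocalRing R ∧ Finite k ∧ (∀ x : R, IsUnit x ↔ φ x ≠ 0) ∧
    (∀ y : k, {x : R | φ x = y}.ncard * Nat.card k = Nat.card R) ∧
    {x : R | IsUnit x}.ncard * Nat.card k = Nat.card R * (Nat.card k - 1)

/-- LIF: smooth points lift. -/
def LIFStmt : Prop :=
  ∀ (R k : Type) [CommRing R] [Field k] (φ : R →+* k) (τ : R), Res φ τ →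
    ∀ (c : Fin 10 → R) (v : Fin 3 → k), tev (fun i => φ (c i)) v = 0 →
    (∃ w, tder (fun i => φ (c i)) v w ≠ 0) →
    {x : Fin 3 → R | (∀ i, φ (x i) = v i) ∧ tev c x = 0}.ncard * Nat.card k ^ 2 =
      Nat.card R ^ 2

/-- SGR: the changes of variables between normal forms. -/
def SGRStmt : Prop :=
  ∀ (R k : Type) [CommRing R] [Field k] (φ : R →+* k) (τ : R), Res φ τ →
    ∀ A D E F G : R, {h : Matrix (Fin 3) (Fin 3) R | h *ᵥ (e1 : Fin 3 → R) = e1 ∧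
      ∃ A' D' E' F' G' : R, Eqv h (sg A D E F G) (sg A' D' E' F' G')}.ncard =
      Nat.card R * {x : R | IsUnit x}.ncard

/-- NFO3: normal forms. -/
def NFO3Stmt : Prop :=
  ∀ (R k : Type) [CommRing R] [Field k] (φ : R →+* k) (τ : R), Res φ τ →
    ∀ (c : Fin 10 → R) (v : Fin 3 → R), tev c v = 0 →
    Good (fun i => φ (c i)) (fun i => φ (v i)) →
    ∃ (g : Matrix (Fin 3) (Fin 3) R) (A D E F G : R), g *ᵥ (e1 : Fin 3 → R) = v ∧
      Eqv g c (sg A D E F G) ∧ (IsUnit A ∨ IsUnit D)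

/-- SGG: the base point of a normal form is good. -/
def SGGStmt : Prop :=
  ∀ (R k : Type) [CommRing R] [Field k] (φ : R →+* k) (τ : R), Res φ τ →
    ∀ (c : Fin 10 → R) (g : Matrix (Fin 3) (Fin 3) R) (A D E F G : R),
    Eqv g c (sg A D E F G) → (IsUnit A ∨ IsUnit D) →
    tev c (g *ᵥ e1) = 0 ∧ Good (fun i => φ (c i)) (fun i => φ ((g *ᵥ e1) i))

/-- NTE: the number of normal forms with a given Jacobian. -/
def NTEStmt : Prop :=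
  ∀ (R k : Type) [CommRing R] [Field k] (φ : R →+* k) (τ : R), Res φ τ →
    ∀ f : R × R × R, {p : R × R × R × R × R × R | (IsUnit p.1 ∨ IsUnit p.2.1) ∧
      sh p.2.2.2.2.2 (fsg τ p.1 p.2.1 p.2.2.1 p.2.2.2.1 p.2.2.2.2.1) = f}.ncard * Nat.card k =
      {x : R | IsUnit x}.ncard * Nat.card R * (Nat.card k * nET f + Nat.card R)

/-- NSU: the number of normal forms with Jacobian in a set. -/
def NSUStmt : Prop :=
  ∀ (R k : Type) [CommRing R] [Field k] (φ : R →+* k) (τ : R), Res φ τ →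
    ∀ A : Set (R × R × R), ShInv A → {p : R × R × R × R × R | (IsUnit p.1 ∨ IsUnit p.2.1) ∧
      fsg τ p.1 p.2.1 p.2.2.1 p.2.2.2.1 p.2.2.2.2 ∈ A}.ncard * Nat.card k =
      {x : R | IsUnit x}.ncard * ∑ᶠ f ∈ A, (Nat.card k * nET f + Nat.card R)

/-- GLC: the number of invertible matrices. -/
def GLCStmt : Prop :=
  ∀ (R k : Type) [CommRing R] [Field k] (φ : R →+* k) (τ : R), Res φ τ →
    {g : Matrix (Fin 3) (Fin 3) R | IsUnit g.det}.ncard * Nat.card k ^ 6 =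
      Nat.card R ^ 9 * ((Nat.card k - 1) * (Nat.card k ^ 2 - 1) * (Nat.card k ^ 3 - 1))

/-- MAS3: the mass formula. -/
def MAS3Stmt : Prop :=
  ∀ (R k : Type) [CommRing R] [Field k] (φ : R →+* k) (τ : R), Res φ τ →
    ∀ A : Set (R × R × R), ShInv A →
    Nat.card k ^ 5 * ∑ᶠ c ∈ {c : Fin 10 → R | Jc τ c ∈ A}, gdk (fun i => φ (c i)) =
      (Nat.card k - 1) * (Nat.card k ^ 2 - 1) * (Nat.card k ^ 3 - 1) * Nat.card R ^ 6 *
        ∑ᶠ f ∈ A, (Nat.card k * nET f + Nat.card R)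

/-- NSH: translations do not change the number of points. -/
def NSHStmt : Prop :=
  ∀ (R : Type) [CommRing R] (η : R) (f : R × R × R), nET (sh η f) = nET f

/-- EXC3: points on curves with a very divisible discriminant. -/
def EXC3Stmt : Prop :=
  ∀ (F : Type) [Field F] [Finite F], (2 : F) ≠ 0 → ∀ (P : F[X]), P.Monic → Irreducible P →
    ∀ ε : ℝ, 0 < ε → ∃ N₀ : ℕ, ∀ N : ℕ, N₀ ≤ N →
    ((∑ᶠ f ∈ {f : AdjoinRoot (P ^ N) × AdjoinRoot (P ^ N) × AdjoinRoot (P ^ N) | dsc f = 0},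
      (Nat.card F ^ P.natDegree * nET f + Nat.card F ^ (N * P.natDegree)) : ℕ) : ℝ) ≤
      ε * (Nat.card F : ℝ) ^ (4 * (N * P.natDegree))

/-- NDN: many cubics over a finite field are nice. -/
def NDNStmt : Prop :=
  ∀ (k : Type) [Field k] [Finite k], (2 : k) ≠ 0 →
    4 * {f : k × k × k | ¬ Nice f}.ncard ≤ 3 * Nat.card k ^ 3

/-- NSI: being nice is invariant under translations. -/
def NSIStmt : Prop :=
  ∀ (R : Type) [CommRing R] (η : R) (f : R × R × R), Nice (sh η f) ↔ Nice f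

/-- LVA: the local weights. -/
def LVAStmt : Prop :=
  ∀ (F : Type) [Field F] [Finite F], (2 : F) ≠ 0 → ∀ (P : F[X]), P.Monic → Irreducible P →
    (∀ N : ℕ, Nat.card (AdjoinRoot (P ^ N)) = Nat.card F ^ (N * P.natDegree)) ∧
    ∀ N : ℕ, 1 ≤ N → ∀ c : Fin 10 → F[X],
      wb P N (fun i => AVS.lft (md (P ^ N) c i)) = wb P N c ∧
      (Nice (md3 P (Jc (hf F) fun i => AVS.lft (md (P ^ N) c i))) ↔
        Nice (md3 P (Jc (hf F) c))) ∧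
      0 ≤ wb P N c ∧ wb P N c ≤ 2 * (Nat.card F : ℝ) ^ (2 * P.natDegree)

/-- LVB: the local averages of the weights. -/
def LVBStmt : Prop :=
  ∀ (F : Type) [Field F] [Finite F], (2 : F) ≠ 0 → ∀ (P : F[X]), P.Monic → Irreducible P →
    ∀ ε : ℝ, 0 < ε → ∃ N₀ : ℕ, ∀ N : ℕ, N₀ ≤ N →
      ∑ᶠ c : Fin 10 → AdjoinRoot (P ^ N), wb P N (fun i => AVS.lft (c i)) ≤
        (rhoF F P.natDegree + ε) * (Nat.card F : ℝ) ^ (10 * (N * P.natDegree)) ∧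
      ∑ᶠ c ∈ {c : Fin 10 → AdjoinRoot (P ^ N) |
          ¬ Nice (md3 P (Jc (hf F) fun i => AVS.lft (c i)))}, wb P N (fun i => AVS.lft (c i)) ≤
        (3 / 4 * rhoF F P.natDegree + ε) * (Nat.card F : ℝ) ^ (10 * (N * P.natDegree))

/-- EQP3: equidistribution of the forms of bounded degrees. -/
def EQP3Stmt : Prop :=
  ∀ (F : Type) [Field F] [Finite F] (n α β N : ℕ) (T : Finset F[X]), 1 ≤ N →
    (∀ M ∈ T, M.Monic) → (∀ M ∈ T, ∀ M' ∈ T, M ≠ M' → IsCoprime M M') →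
    (∑ M ∈ T, M.natDegree) + N + 2 * α + β ≤ n + 1 →
    ∀ (Φ : (M : F[X]) → (Fin 10 → AdjoinRoot M) → ℝ)
      (Ψ : (Fin 10 → AdjoinRoot ((X : F[X]) ^ N)) → ℝ),
      (Vd n (dv α β) : Set (Fin 10 → F[X])).Finite ∧
      ∑ᶠ c ∈ (Vd n (dv α β) : Set (Fin 10 → F[X])),
        (∏ M ∈ T, Φ M (md M c)) * Ψ (md (X ^ N) (cinf n (dv α β) c)) =
      (Nat.card F : ℝ) ^ (10 * n + 10) *
        (∏ M ∈ T, (∑ᶠ c : Fin 10 → AdjoinRoot M, Φ M c) /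
          (Nat.card F : ℝ) ^ (10 * M.natDegree)) *
        ((∑ᶠ c : Fin 10 → AdjoinRoot ((X : F[X]) ^ N), Ψ c) / (Nat.card F : ℝ) ^ (10 * N))

/-- JIN: the Jacobian and the place at infinity. -/
def JINStmt : Prop :=
  ∀ (F : Type) [Field F], (2 : F) ≠ 0 → ∀ n : ℕ,
    (∀ α β : ℕ, ∀ c ∈ (Vd n (dv α β) : Set (Fin 10 → F[X])),
      Jc (hf F) c ∈ Fam F n ∧ Jc (hf F) (cinf n (dv α β) c) = AVS.finf n (Jc (hf F) c)) ∧
    ∀ (p : F[X]) (f : F[X] × F[X] × F[X]), f ∈ Fam F n → sh p f ∈ Fam F n →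
      p.natDegree ≤ 2 * n ∧ AVS.finf n (sh p f) = sh (p.reflect (2 * n)) (AVS.finf n f)

/-- ZE3: the Euler product. -/
def ZE3Stmt : Prop :=
  ∀ (F : Type) [Field F] [Finite F], ∀ ε : ℝ, 0 < ε → ∃ D : ℕ, ∀ S : Finset F[X],
    (∀ P ∈ S, P.Monic ∧ Irreducible P) →
    (∀ P : F[X], P.Monic → Irreducible P → P.natDegree ≤ D → P ∈ S) →
    ∏ P ∈ S, (1 - 1 / (Nat.card F : ℝ) ^ (3 * P.natDegree)) ≤
      1 - 1 / (Nat.card F : ℝ) ^ 2 + ε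

/-- SUF: summation over the curves. -/
def SUFStmt : Prop :=
  ∀ (F : Type) [Field F] [Finite F], (2 : F) ≠ 0 → ∀ (n α β : ℕ), α ≤ n → β ≤ n →
    ∀ (T : Set (F[X] × F[X] × F[X])) (W : (Fin 10 → F[X]) → ℝ), T ⊆ Fam F n →
    (∀ c, 0 ≤ W c) →
    ∑ᶠ f ∈ T, ∑ᶠ c ∈ VJ n (dv α β) f, W c ≤ (Nat.card F : ℝ) ^ (2 * n + 1) *
      ∑ᶠ c ∈ {c : Fin 10 → F[X] | c ∈ Vd n (dv α β) ∧ ∃ f ∈ T, c ∈ VJ n (dv α β) f}, W c

/-- AVW: the averages of the weights over the forms of one type. -/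
def AVWStmt : Prop :=
  ∀ (F : Type) [Field F] [Finite F], (2 : F) ≠ 0 → ∀ (S : Finset F[X]),
    (∀ P ∈ S, P.Monic ∧ Irreducible P) → ∀ ε : ℝ, 0 < ε → ∃ N : ℕ, 1 ≤ N ∧
    ∀ n α β : ℕ, N * (∑ P ∈ S, P.natDegree + 1) + 2 * α + β ≤ n + 1 →
      ∑ᶠ c ∈ (Vd n (dv α β) : Set (Fin 10 → F[X])), WB3 n α β S N c ≤
        (rhoS S + ε) * (Nat.card F : ℝ) ^ (10 * n + 10) ∧
      ∑ᶠ c ∈ {c : Fin 10 → F[X] | c ∈ Vd n (dv α β) ∧
        ∀ P ∈ S, ¬ Nice (md3 P (Jc (hf F) c))}, WB3 n α β S N c ≤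
        ((3 / 4) ^ S.card * rhoS S + ε) * (Nat.card F : ℝ) ^ (10 * n + 10)

/-- TLW: the tail, the forms of the types near the boundary. -/
def TLWStmt : Prop :=
  ∀ (F : Type) [Field F] [Finite F], (2 : F) ≠ 0 → ∀ (S : Finset F[X]),
    (∀ P ∈ S, P.Monic ∧ Irreducible P) → ∀ (N : ℕ), 1 ≤ N → ∀ ε : ℝ, 0 < ε →
    ∃ n₀ : ℕ, ∀ n : ℕ, n₀ ≤ n →
      ∑ α ∈ Finset.range (n + 1), ∑ β ∈ Finset.range (n + 1),
        (if N * (∑ P ∈ S, P.natDegree + 1) + 2 * α + β ≤ n + 1 then 0 else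
        (∑ᶠ c ∈ (Vd n (dv α β) : Set (Fin 10 → F[X])), WB3 n α β S N c) /
          (G3 (dv α β) : Set (Matrix (Fin 3) (Fin 3) F[X])).ncard) ≤
      ε * (Nat.card F : ℝ) ^ (10 * n + 10)

/-- MTS: the main term. -/
def MTSStmt : Prop :=
  ∀ (F : Type) [Field F] [Finite F], (2 : F) ≠ 0 → ∀ n : ℕ,
    ((Nat.card F : ℝ) - 1) * (∑ α ∈ Finset.range (n + 1), ∑ β ∈ Finset.range (n + 1),
      1 / ((G3 (dv α β) : Set (Matrix (Fin 3) (Fin 3) F[X])).ncard : ℝ)) *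
      (Nat.card F : ℝ) ^ (12 * n + 11) ≤
    3 / ((1 - 1 / (Nat.card F : ℝ)) * (1 - 1 / (Nat.card F : ℝ) ^ 2) * rhoF F 1) *
      (Nat.card F : ℝ) ^ (12 * n + 3)

/-- ELN: the number of curves. -/
def ELNStmt : Prop :=
  ∀ (F : Type) [Field F] [Finite F], (2 : F) ≠ 0 → ∀ n : ℕ, 1 ≤ n →
    (Ell F n).Finite ∧ (Ell F n).ncard ≤ Nat.card F ^ (12 * n + 3) ∧
    (El F n).ncard ≤ Nat.card F ^ (12 * n + 3) ∧
    Nat.card F ^ (12 * n + 3) ≤ (El F n).ncard + 3 * Nat.card F ^ (10 * n + 3) ∧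
    (Ell F n \ El F n).ncard ≤ Nat.card F ^ (10 * n + 3)

/-- LMU3: the upper bound for the average. -/
def LMU3Stmt : Prop :=
  ∀ (F : Type) [Field F] [Finite F], (2 : F) ≠ 0 → ∀ ε : ℝ, 0 < ε → ∃ N : ℕ, ∀ n : ℕ, N ≤ n →
    (∀ f ∈ El F n, Finite (Sel3 f)) ∧
    ∑ᶠ f ∈ El F n, (Nat.card (Sel3 f) : ℝ) ≤ (4 + ε) * (El F n).ncard

open Classical in
/-- RKO: ranks are at most linear in the height. -/
def RKOStmt : Prop :=
  ∀ (F : Type) [Field F] [Finite F], (2 : F) ≠ 0 → ∃ C : ℕ, ∀ n : ℕ, ∀ f ∈ Ell F n,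
    AddGroup.FG (EK f) ∧ Module.finrank ℤ (EK f) ≤ C * (n + 1)

open Classical in
/-- FN2: the final statement of stage 2. -/
def FN2Stmt : Prop :=
  ∀ (F : Type) [Field F] [Finite F], (2 : F) ≠ 0 →
    (∀ n : ℕ, ∀ f ∈ Ell F n, AddGroup.FG (EK f)) ∧
    (∀ n : ℕ, ∀ f ∈ El F n, Finite (Sel3 f) ∧
      Nat.card (Mod3 (EK f)) ≤ Nat.card (Sel3 f) ∧
      3 ^ Module.finrank ℤ (EK f) ≤ Nat.card (Mod3 (EK f))) ∧
    (∀ n : ℕ, 1 ≤ n → (Fam F n).ncard = Nat.card F ^ (12 * n + 3) ∧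
      {f ∈ Fam F n | f ∉ El F n}.ncard ≤ 3 * Nat.card F ^ (10 * n + 3)) ∧
    ∀ ε : ℝ, 0 < ε → ∃ N : ℕ, ∀ n : ℕ, N ≤ n →
      ∑ᶠ f ∈ El F n, (Nat.card (Sel3 f) : ℝ) ≤ (4 + ε) * (El F n).ncard ∧
      ∑ᶠ f ∈ Ell F n, (Module.finrank ℤ (EK f) : ℝ) ≤ (7 / 6 + ε) * (Ell F n).ncard ∧
      (5 / 8 - ε) * (Ell F n).ncard ≤ {f ∈ Ell F n | Module.finrank ℤ (EK f) ≤ 1}.ncard

end Pool.AV3
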