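import Pool.Agent.H8.AV3.Stmts2

/-!
# Three-descent over `F(t)`, stage 2: places, gluing, and the counting inequality
-/

set_option autoImplicit false

namespace Pool.AV3

open Polynomial Matrix Pool.AVR

/-- DVP: the valuation rings. -/
def DVPStmt : Prop :=
  (∀ (F : Type) [Field F] (P : F[X]), Irreducible P →
    Dv (AVS.IP P) (algebraMap F[X] (RatFunc F) P)) ∧
  (∀ (F : Type) [Field F], Dv (AVS.Iinf F) (RatFunc.X)⁻¹) ∧
  ∀ (L : Type) [Field L] (O : ValuationSubring L) (π : L), AVS.Loc L O π → Dv (O : Set L) π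

/-- TRA3: comparison with the completion. -/
def TRA3Stmt : Prop :=
  ∀ (F : Type) [Field F] (I : Set (RatFunc F)) (ϖ : RatFunc F) (L : Type) [Field L]
    (O : ValuationSubring L) (ι : RatFunc F →+* L), AVS.IsComp F I ϖ L O ι →
    (∀ (c : Fin 10 → RatFunc F) (g : Matrix (Fin 3) (Fin 3) L) (v : Fin 3 → L),
      KP3 (O : Set L) (ι ϖ) (fun i => ι (c i)) g v →
      ∃ (g' : Matrix (Fin 3) (Fin 3) (RatFunc F)) (v' : Fin 3 → RatFunc F),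
        KP3 I ϖ c g' v' ∧ Eq3 (O : Set L) (ι ϖ) g v (g'.map ι) (fun i => ι (v' i))) ∧
    ∀ (g g' : Matrix (Fin 3) (Fin 3) (RatFunc F)) (v v' : Fin 3 → RatFunc F),
      Eq3 I ϖ g v g' v' →
      Eq3 (O : Set L) (ι ϖ) (g.map ι) (fun i => ι (v i)) (g'.map ι) (fun i => ι (v' i))

/-- LUG3: many pairs (lattice, good point), over `F(t)`. -/
def LUG3Stmt : Prop :=
  ∀ (F : Type) [Field F] (I : Set (RatFunc F)) (ϖ : RatFunc F) (L : Type) [Field L]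
    (O : ValuationSubring L) (ι : RatFunc F →+* L), AVS.IsComp F I ϖ L O ι →
    ∀ (a b c : O), disc a b c ≠ 0 → ∀ c₀ : Fin 10 → RatFunc F,
    Cls ((a : L), (b : L), (c : L)) (fun i => ι (c₀ i)) →
    LF3 I ϖ c₀ 1 ∧
    ∀ N : ℕ, disc a b c ∉ (IsLocalRing.maximalIdeal O) ^ N →
      ∃ M : ℕ, LF3 I ϖ c₀ M ∧
        AVS.nE (AVS.ON O N) (Ideal.Quotient.mk _ a) (Ideal.Quotient.mk _ b)
          (Ideal.Quotient.mk _ c) + AVS.kap O ^ (N - 1) ≤ M * AVS.kap O ^ (N - 1)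

/-- SEC: the local conditions. -/
def SECStmt : Prop :=
  ∀ (F : Type) [Field F] [Finite F], (2 : F) ≠ 0 → ∀ (f : F[X] × F[X] × F[X]),
    (∀ c ∈ SelSet f, (∀ P : F[X], P.Monic → Irreducible P →
        ∃ (L : Type) (_ : Field L) (O : ValuationSubring L) (ι : RatFunc F →+* L),
          AVS.IsComp F (AVS.IP P) (algebraMap F[X] (RatFunc F) P) L O ι ∧
          Cls (k3 ι f) (fun i => ι (c i))) ∧
      ∃ (L : Type) (_ : Field L) (O : ValuationSubring L) (ι : RatFunc F →+* L),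
          AVS.IsComp F (AVS.Iinf F) (RatFunc.X)⁻¹ L O ι ∧ Cls (k3 ι f) (fun i => ι (c i))) ∧
    (∀ c c' : Fin 10 → RatFunc F, c ∈ SelSet f → (∃ g, Eqv g c c') → c' ∈ SelSet f) ∧
    ∀ Q : EK f, dsc f ≠ 0 → FQ (f := AVS.kf f) Q ∈ SelSet f

/-- SCC: scaling. -/
def SCCStmt : Prop :=
  ∀ (L : Type) [Field L] (a b c t : L) (c₀ : Fin 10 → L), t ≠ 0 → Cls (a, b, c) c₀ →
    Cls (a / t ^ 2, b / t ^ 4, c / t ^ 6) (t⁻¹ • c₀)

/-- LOP: many pairs at a finite place. -/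
def LOPStmt : Prop :=
  ∀ (F : Type) [Field F] [Finite F], (2 : F) ≠ 0 → ∀ (f : F[X] × F[X] × F[X]), dsc f ≠ 0 →
    ∀ c ∈ SelSet f, ∀ P : F[X], P.Monic → Irreducible P → ∀ N : ℕ, 1 ≤ N →
    ∃ M : ℕ, LF3 (AVS.IP P) (algebraMap F[X] (RatFunc F) P) c M ∧ 1 ≤ M ∧
      Bx P N f ≤ ((Nat.card (AdjoinRoot P) : ℝ) - 1) * M

/-- LOI: many pairs at infinity. -/
def LOIStmt : Prop :=
  ∀ (F : Type) [Field F] [Finite F], (2 : F) ≠ 0 → ∀ (n : ℕ) (f : F[X] × F[X] × F[X]),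
    f ∈ Ell F n → ∀ c ∈ SelSet f, ∀ N : ℕ, 1 ≤ N →
    ∃ M : ℕ, LF3 (AVS.Iinf F) (RatFunc.X)⁻¹ (((RatFunc.X : RatFunc F) ^ n)⁻¹ • c) M ∧ 1 ≤ M ∧
      Bx X N (AVS.finf n f) ≤ ((Nat.card (AdjoinRoot (X : F[X])) : ℝ) - 1) * M

/-- GLB3: a global form with prescribed local lattices. -/
def GLB3Stmt : Prop :=
  ∀ (F : Type) [Field F] (n : ℕ) (c : Fin 10 → RatFunc F) (S : Finset F[X])
    (gP : F[X] → Matrix (Fin 3) (Fin 3) (RatFunc F)) (gi : Matrix (Fin 3) (Fin 3) (RatFunc F)),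
    (∀ P ∈ S, P.Monic ∧ Irreducible P) →
    (∀ P ∈ S, (gP P).det ≠ 0 ∧ ∀ i, tsub c (gP P) i / (gP P).det ∈ AVS.IP P) →
    (∀ P : F[X], P.Monic → Irreducible P → P ∉ S → ∀ i, c i ∈ AVS.IP P) →
    gi.det ≠ 0 →
    (∀ i, tsub (((RatFunc.X : RatFunc F) ^ n)⁻¹ • c) gi i / gi.det ∈ AVS.Iinf F) →
    ∃ (α β : ℕ) (c' : Fin 10 → F[X]) (g κ : Matrix (Fin 3) (Fin 3) (RatFunc F)) (k : ℤ),
      c' ∈ Vd n (dv α β) ∧ Eqv g c (mp c') ∧
      (∀ P ∈ S, ∃ κ, AVS.GI (AVS.IP P) κ ∧ g = gP P * κ) ∧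
      (∀ P : F[X], P.Monic → Irreducible P → P ∉ S → AVS.GI (AVS.IP P) g) ∧
      AVS.GI (AVS.Iinf F) κ ∧ g = (RatFunc.X : RatFunc F) ^ k • (gi * κ * Dg (dv α β))

/-- KYS3: representatives of the classes. -/
def KYS3Stmt : Prop :=
  ∀ (F : Type) [Field F] [Finite F], (2 : F) ≠ 0 → ∀ (n : ℕ) (f : F[X] × F[X] × F[X]),
    f ∈ Ell F n → ∀ c ∈ SelSet f,
    ∃ (α β : ℕ) (c' : Fin 10 → F[X]) (g : Matrix (Fin 3) (Fin 3) (RatFunc F)),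
      c' ∈ Vd n (dv α β) ∧ Eqv g c (mp c') ∧ mp c' ∈ SelSet f

/-- VDI: forms of bounded degree at infinity. -/
def VDIStmt : Prop :=
  ∀ (F : Type) [Field F] (n : ℕ) (d : Fin 3 → ℤ) (c : Fin 10 → F[X]),
    (c ∈ Vd n d ↔ ∀ i, cI n d c i ∈ AVS.Iinf F) ∧
    (∀ i, tsub (((RatFunc.X : RatFunc F) ^ n)⁻¹ • mp c) (Dg d)⁻¹ i / ((Dg d)⁻¹).det =
      cI n d c i) ∧
    ∀ P : F[X], Irreducible P → ∀ i, mp c i ∈ AVS.IP P

/-- GAF: automorphisms at the places. -/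
def GAFStmt : Prop :=
  ∀ (F : Type) [Field F] (γ : Matrix (Fin 3) (Fin 3) F[X]),
    (∀ P : F[X], Irreducible P → IsUnit γ.det →
      AVS.GI (AVS.IP P) (γ.map (algebraMap F[X] (RatFunc F)))) ∧
    ∀ d : Fin 3 → ℤ, γ ∈ G3 d →
      AVS.GI (AVS.Iinf F) (Dg d * γ.map (algebraMap F[X] (RatFunc F)) * (Dg d)⁻¹)

/-- GPR: proportional automorphisms. -/
def GPRStmt : Prop :=
  ∀ (F : Type) [Field F] (γ γ' : Matrix (Fin 3) (Fin 3) F[X]), IsUnit γ.det → IsUnit γ'.det →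
    ∀ r : RatFunc F, γ'.map (algebraMap F[X] (RatFunc F)) =
      r • γ.map (algebraMap F[X] (RatFunc F)) →
      ∃ r₀ : F, r₀ ≠ 0 ∧ r = algebraMap F[X] (RatFunc F) (C r₀) ∧ γ' = C r₀ • γ

/-- RDP: reduction modulo `P`. -/
def RDPStmt : Prop :=
  ∀ (F : Type) [Field F] (P : F[X]), P.Monic → Irreducible P →
    (∀ z z' : Fin 3 → RatFunc F, (∀ i, z i ∈ AVS.IP P) → (∀ i, z' i ∈ AVS.IP P) →
      (rdP P z = rdP P z' ↔ ∀ i, (z i - z' i) / algebraMap F[X] (RatFunc F) P ∈ AVS.IP P)) ∧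
    (∀ z : Fin 3 → F[X], rdP P (pv z) = fun i => AdjoinRoot.mk P (z i)) ∧
    (∀ z : Fin 3 → RatFunc F, (∀ i, z i ∈ AVS.IP P) →
      ∃ z' : Fin 3 → F[X], ∀ i, (z i - pv z' i) / algebraMap F[X] (RatFunc F) P ∈ AVS.IP P) ∧
    ∀ (c : Fin 10 → F[X]) (z : Fin 3 → RatFunc F),
      GdI (AVS.IP P) (algebraMap F[X] (RatFunc F) P) (mp c) z → Good (md P c) (rdP P z)

/-- RDI: reduction at infinity. -/
def RDIStmt : Prop :=
  ∀ (F : Type) [Field F],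
    (∀ z z' : Fin 3 → RatFunc F, (∀ i, z i ∈ AVS.Iinf F) → (∀ i, z' i ∈ AVS.Iinf F) →
      (rdI z = rdI z' ↔ ∀ i, (z i - z' i) / (RatFunc.X)⁻¹ ∈ AVS.Iinf F)) ∧
    ∀ (n : ℕ) (d : Fin 3 → ℤ) (c : Fin 10 → F[X]), c ∈ Vd n d →
      ∀ z : Fin 3 → RatFunc F, GdI (AVS.Iinf F) (RatFunc.X)⁻¹ (cI n d c) z →
        Good (md X (cinf n d c)) (rdI z)

/-- ETA: the Jacobian of a form of the Selmer group. -/
def ETAStmt : Prop :=
  ∀ (F : Type) [Field F] [Finite F], (2 : F) ≠ 0 → ∀ (n : ℕ) (d : Fin 3 → ℤ)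
    (f : F[X] × F[X] × F[X]), f ∈ El F n → ∀ c ∈ Vd n d, mp c ∈ SelSet f → c ∈ VJ n d f

/-- TRV: nontrivial classes are represented in bounded degrees. -/
def TRVStmt : Prop :=
  ∀ (F : Type) [Field F] [Finite F], (2 : F) ≠ 0 → ∀ (n α β : ℕ)
    (f : F[X] × F[X] × F[X]), f ∈ El F n → ∀ c ∈ Vd n (dv α β), mp c ∈ SelSet f →
    (¬ ∃ g, Eqv g (FO (AVS.kf f).1 (AVS.kf f).2.1 (AVS.kf f).2.2) (mp c)) → α ≤ n ∧ β ≤ n

/-- ST9: stabilisers have at most nine elements. -/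
def ST9Stmt : Prop :=
  ∀ (F : Type) [Field F] [Finite F], (2 : F) ≠ 0 → ∀ (n : ℕ) (f : F[X] × F[X] × F[X]),
    f ∈ El F n → StB f 9

/-- ST1: stabilisers are trivial if the cubic is nice modulo some prime. -/
def ST1Stmt : Prop :=
  ∀ (F : Type) [Field F] [Finite F], (2 : F) ≠ 0 → ∀ (n : ℕ) (f : F[X] × F[X] × F[X]),
    f ∈ El F n → ∀ P : F[X], P.Monic → Irreducible P → Nice (md3 P f) → StB f 1

/-- MPL: the marks of one choice of local pairs. For pairs `(gP P, vP P)` at the primes of `S` and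
`(gi, vi)` at infinity there are a form `c'` of bounded degrees and a matrix `g` such that for all
scalars and all automorphisms the marks exist. -/
def MPLStmt : Prop :=
  ∀ (F : Type) [Field F] [Finite F], (2 : F) ≠ 0 → ∀ (n : ℕ) (c₀ : Fin 10 → F[X])
    (S : Finset F[X]) (gP : F[X] → Matrix (Fin 3) (Fin 3) (RatFunc F))
    (vP : F[X] → Fin 3 → RatFunc F) (gi : Matrix (Fin 3) (Fin 3) (RatFunc F))
    (vi : Fin 3 → RatFunc F),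
    (∀ P ∈ S, P.Monic ∧ Irreducible P) →
    (∀ P ∈ S, KP3 (AVS.IP P) (algebraMap F[X] (RatFunc F) P) (mp c₀) (gP P) (vP P)) →
    KP3 (AVS.Iinf F) (RatFunc.X)⁻¹ (((RatFunc.X : RatFunc F) ^ n)⁻¹ • mp c₀) gi vi →
    ∃ (α β : ℕ) (g : Matrix (Fin 3) (Fin 3) (RatFunc F)), g.det ≠ 0 ∧
      ∀ γ ∈ (G3 (dv α β) : Set (Matrix (Fin 3) (Fin 3) F[X])), ∃ c' ∈ Vd n (dv α β),
        Eqv (g * γ.map (algebraMap F[X] (RatFunc F))) (mp c₀) (mp c') ∧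
        (∀ P ∈ S, ∀ l : F[X], ¬ P ∣ l → ∃ z,
          Mk (AVS.IP P) (algebraMap F[X] (RatFunc F) P) (gP P)
            (algebraMap F[X] (RatFunc F) l • vP P) (g * γ.map (algebraMap F[X] (RatFunc F))) z ∧
          Good (md P c') (rdP P z)) ∧
        ∀ l : F, l ≠ 0 → ∃ z,
          Mk (AVS.Iinf F) (RatFunc.X)⁻¹ gi (algebraMap F[X] (RatFunc F) (C l) • vi)
            (g * γ.map (algebraMap F[X] (RatFunc F)) * (Dg (dv α β))⁻¹) z ∧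
          Good (md X (cinf n (dv α β) c')) (rdI z)

/-- FIB: the fibres. Two choices of pairs, scalars and automorphisms with the same marks and
proportional matrices agree, up to a constant. -/
def FIBStmt : Prop :=
  ∀ (F : Type) [Field F] [Finite F] (α β : ℕ)
    (S : Finset F[X]) (gP gP' : F[X] → Matrix (Fin 3) (Fin 3) (RatFunc F))
    (vP vP' : F[X] → Fin 3 → RatFunc F) (gi gi' : Matrix (Fin 3) (Fin 3) (RatFunc F))
    (vi vi' : Fin 3 → RatFunc F) (l l' : F[X] → F[X]) (li li' : F)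
    (g g' : Matrix (Fin 3) (Fin 3) (RatFunc F)) (r : RatFunc F)
    (z z' : F[X] → Fin 3 → RatFunc F) (zi zi' : Fin 3 → RatFunc F),
    (∀ P ∈ S, P.Monic ∧ Irreducible P) →
    (∀ P ∈ S, (gP P).det ≠ 0 ∧ (gP' P).det ≠ 0 ∧ ¬ P ∣ l P ∧ ¬ P ∣ l' P ∧
      (∀ i, vP P i ∈ AVS.IP P) ∧ ∃ i, vP P i / algebraMap F[X] (RatFunc F) P ∉ AVS.IP P) →
    gi.det ≠ 0 → gi'.det ≠ 0 → li ≠ 0 → li' ≠ 0 → (∀ i, vi i ∈ AVS.Iinf F) →
    (∃ i, vi i / (RatFunc.X)⁻¹ ∉ AVS.Iinf F) → r ≠ 0 → g' = r • g →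
    (∀ P ∈ S, Mk (AVS.IP P) (algebraMap F[X] (RatFunc F) P) (gP P)
      (algebraMap F[X] (RatFunc F) (l P) • vP P) g (z P) ∧
      Mk (AVS.IP P) (algebraMap F[X] (RatFunc F) P) (gP' P)
        (algebraMap F[X] (RatFunc F) (l' P) • vP' P) g' (z' P) ∧
      rdP P (z P) = rdP P (z' P)) →
    Mk (AVS.Iinf F) (RatFunc.X)⁻¹ gi (algebraMap F[X] (RatFunc F) (C li) • vi)
      (g * (Dg (dv α β))⁻¹) zi →
    Mk (AVS.Iinf F) (RatFunc.X)⁻¹ gi' (algebraMap F[X] (RatFunc F) (C li') • vi')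
      (g' * (Dg (dv α β))⁻¹) zi' → rdI zi = rdI zi' →
    (∀ P ∈ S, Eq3 (AVS.IP P) (algebraMap F[X] (RatFunc F) P) (gP P) (vP P) (gP' P) (vP' P)) ∧
    Eq3 (AVS.Iinf F) (RatFunc.X)⁻¹ gi vi gi' vi' ∧
    ∀ r₀ : F, r = algebraMap F[X] (RatFunc F) (C r₀) → gP = gP' → vP = vP' → gi = gi' →
      vi = vi' → (∀ P ∈ S, P ∣ l' P - C r₀ * l P) ∧ li' = r₀ * li

/-- WCT: the counting inequality for one curve, without denominators. -/
def WCTStmt : Prop :=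
  ∀ (F : Type) [Field F] [Finite F], (2 : F) ≠ 0 → ∀ (n N s : ℕ) (S : Finset F[X])
    (f : F[X] × F[X] × F[X]), f ∈ El F n → 1 ≤ N → (∀ P ∈ S, P.Monic ∧ Irreducible P) →
    StB f s →
    Finite (Sel3 f) ∧ ((Nat.card (Sel3 f) : ℝ) - 1) *
        ((∏ P ∈ S, Bx P N f) * Bx X N (AVS.finf n f)) ≤ s * ((Nat.card F : ℝ) - 1) *
      ∑ α ∈ Finset.range (n + 1), ∑ β ∈ Finset.range (n + 1),
        (∑ᶠ c ∈ VJ n (dv α β) f, (∏ P ∈ S, (gdk (md P c) : ℝ)) *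
          gdk (md X (cinf n (dv α β) c))) /
          (G3 (dv α β) : Set (Matrix (Fin 3) (Fin 3) F[X])).ncard

/-- BXE: the denominators depend only on the curve. -/
def BXEStmt : Prop :=
  ∀ (F : Type) [Field F] [Finite F], (2 : F) ≠ 0 → ∀ (n α β N : ℕ), α ≤ n → β ≤ n →
    ∀ f ∈ Ell F n, ∀ c ∈ VJ n (dv α β) f,
    (∀ P : F[X], Bx P N (Jc (hf F) c) = Bx P N f) ∧
    Bx X N (Jc (hf F) (cinf n (dv α β) c)) = Bx X N (AVS.finf n f)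

/-- WUG3: the weighted counting inequality for one curve. -/
def WUG3Stmt : Prop :=
  ∀ (F : Type) [Field F] [Finite F], (2 : F) ≠ 0 → ∀ (n N s : ℕ) (S : Finset F[X])
    (f : F[X] × F[X] × F[X]), f ∈ El F n → 1 ≤ N → (∀ P ∈ S, P.Monic ∧ Irreducible P) →
    StB f s →
    Finite (Sel3 f) ∧ (Nat.card (Sel3 f) : ℝ) - 1 ≤ s * ((Nat.card F : ℝ) - 1) *
      ∑ α ∈ Finset.range (n + 1), ∑ β ∈ Finset.range (n + 1),
        (∑ᶠ c ∈ VJ n (dv α β) f, WB3 n α β S N c) /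
          (G3 (dv α β) : Set (Matrix (Fin 3) (Fin 3) F[X])).ncard

open Classical in
/-- EMB3: `E / 3E` embeds into the Selmer group. -/
def EMB3Stmt : Prop :=
  ∀ (F : Type) [Field F] [Finite F], (2 : F) ≠ 0 → ∀ (n : ℕ) (f : F[X] × F[X] × F[X]),
    f ∈ El F n → Finite (Sel3 f) → Finite (Mod3 (EK f)) ∧
      Nat.card (Mod3 (EK f)) ≤ Nat.card (Sel3 f)

end Pool.AV3
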