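import Pool.Agent.H14.AVR.Stmts2

/-!
# Three-descent over `F(t)`, `F` a finite field of odd order: definitions

Elliptic curves `y² = x³ + a x² + b x + c`; ternary cubic forms are given by their ten coefficients.
-/

set_option autoImplicit false

namespace Pool.AV3

open Polynomial Matrix Pool.AVR

section General

variable {R : Type} [CommRing R]

/-- The ten monomials of degree three in three variables, as sorted triples of indices. -/
def tr : Fin 10 → Fin 3 → Fin 3 :=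
  ![![0, 0, 0], ![0, 0, 1], ![0, 0, 2], ![0, 1, 1], ![0, 1, 2], ![0, 2, 2], ![1, 1, 1],
    ![1, 1, 2], ![1, 2, 2], ![2, 2, 2]]

/-- The value of the ternary cubic form with coefficients `c`. -/
def tev (c : Fin 10 → R) (v : Fin 3 → R) : R :=
  c 0 * v 0 ^ 3 + c 1 * (v 0 ^ 2 * v 1) + c 2 * (v 0 ^ 2 * v 2) + c 3 * (v 0 * v 1 ^ 2) +
    c 4 * (v 0 * v 1 * v 2) + c 5 * (v 0 * v 2 ^ 2) + c 6 * v 1 ^ 3 + c 7 * (v 1 ^ 2 * v 2) +
    c 8 * (v 1 * v 2 ^ 2) + c 9 * v 2 ^ 3

/-- The directional derivative of the ternary cubic form at `v` in direction `w`. -/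
def tder (c : Fin 10 → R) (v w : Fin 3 → R) : R :=
  c 0 * (3 * v 0 ^ 2 * w 0) + c 1 * (2 * v 0 * v 1 * w 0 + v 0 ^ 2 * w 1) +
    c 2 * (2 * v 0 * v 2 * w 0 + v 0 ^ 2 * w 2) + c 3 * (v 1 ^ 2 * w 0 + 2 * v 0 * v 1 * w 1) +
    c 4 * (v 1 * v 2 * w 0 + v 0 * v 2 * w 1 + v 0 * v 1 * w 2) +
    c 5 * (v 2 ^ 2 * w 0 + 2 * v 0 * v 2 * w 2) + c 6 * (3 * v 1 ^ 2 * w 1) +
    c 7 * (2 * v 1 * v 2 * w 1 + v 1 ^ 2 * w 2) + c 8 * (v 2 ^ 2 * w 1 + 2 * v 1 * v 2 * w 2) +
    c 9 * (3 * v 2 ^ 2 * w 2)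

/-- The coefficients of the form `v ↦ c (g v)`. -/
def tsub (c : Fin 10 → R) (g : Matrix (Fin 3) (Fin 3) R) : Fin 10 → R :=
  ![tev c (fun i => g i 0),
    tder c (fun i => g i 0) (fun i => g i 1),
    tder c (fun i => g i 0) (fun i => g i 2),
    tder c (fun i => g i 1) (fun i => g i 0),
    tder c (fun i => g i 0 + g i 1) (fun i => g i 2) - tder c (fun i => g i 0) (fun i => g i 2) -
      tder c (fun i => g i 1) (fun i => g i 2),
    tder c (fun i => g i 2) (fun i => g i 0),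
    tev c (fun i => g i 1),
    tder c (fun i => g i 1) (fun i => g i 2),
    tder c (fun i => g i 2) (fun i => g i 1),
    tev c (fun i => g i 2)]

/-- The forms `c` and `c'` are equivalent by `g`: `c (g v) = det g · c' v`. -/
def Eqv (g : Matrix (Fin 3) (Fin 3) R) (c c' : Fin 10 → R) : Prop :=
  IsUnit g.det ∧ tsub c g = g.det • c'

/-- The ternary cubic form of the point `(x, y)` of the curve `y² = x³ + a x² + b x + c`. -/
def FP (a b x y : R) : Fin 10 → R :=
  ![0, 1, -x, 0, 0, -2 * y, 0, -1, -(x + a), -(x ^ 2 + a * x + b)]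

/-- The ternary cubic form of the point at infinity. -/
def FO (a b c : R) : Fin 10 → R := ![1, 0, a, 0, 0, b, 0, -1, 0, c]

/-- The second unit vector. -/
def e1 : Fin 3 → R := ![0, 1, 0]

/-- The matrix `r (1 + η E₁₂)`. -/
def uni (r η : R) : Matrix (Fin 3) (Fin 3) R := !![r, 0, 0; 0, r, r * η; 0, 0, r]

end General

section FieldDefs

variable {K : Type} [Field K] [DecidableEq K]

open Classical in
/-- The parametrisation of the cubic `FP a b x₀ y₀` by the points of the curve. -/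
noncomputable def phi {a b c : K} (x₀ y₀ : K) : Pt a b c → Fin 3 → K
  | .zero => ![0, 1, 0]
  | .some x y _ => if x = x₀ ∧ y = y₀ then ![1, 0, 0]
      else ![(E a b c).toAffine.slope x x₀ y (-y₀), x, 1]

end FieldDefs

/-- `G / 3G`. -/
abbrev Mod3 (G : Type) [AddCommGroup G] : Type := G ⧸ (nsmulAddMonoidHom (α := G) 3).range

section Function

variable {F : Type} [Field F]

/-- The image of a form over `F[t]` over `F(t)`. -/
noncomputable def mp (c : Fin 10 → F[X]) : Fin 10 → RatFunc F :=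
  fun i => algebraMap F[X] (RatFunc F) (c i)

/-- The form of the point `(x, y)` of `E_f`. -/
noncomputable def FK (f : F[X] × F[X] × F[X]) (x y : RatFunc F) : Fin 10 → RatFunc F :=
  FP (algebraMap F[X] (RatFunc F) f.1) (algebraMap F[X] (RatFunc F) f.2.1) x y

/-- The point `(x, y)` lies on `E_f`. -/
def OnK (f : F[X] × F[X] × F[X]) (x y : RatFunc F) : Prop :=
  OnC (algebraMap F[X] (RatFunc F) f.1) (algebraMap F[X] (RatFunc F) f.2.1)
    (algebraMap F[X] (RatFunc F) f.2.2) x y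

/-- The degrees `(0, α, α + β)`. -/
def dv (α β : ℕ) : Fin 3 → ℤ := ![0, α, α + β]

/-- Cubic forms over `F[t]` with bounded degrees (sections of `Sym³ V^* ⊗ det V (n)` where
`V = ⊕ O(-d_i)`). -/
def Vd (n : ℕ) (d : Fin 3 → ℤ) : Set (Fin 10 → F[X]) :=
  {c | ∀ i, c i ≠ 0 → ((c i).natDegree : ℤ) ≤ n + ∑ s, d (tr i s) - ∑ j, d j}

/-- The automorphism group of `V`. -/
def G3 (d : Fin 3 → ℤ) : Set (Matrix (Fin 3) (Fin 3) F[X]) :=
  {g | IsUnit g.det ∧ ∀ i j, g i j ≠ 0 → ((g i j).natDegree : ℤ) ≤ d j - d i}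

/-- The forms in `Vd n d` which are equivalent over `F(t)` to the form of a point of some `E_f`,
`f ∈ S`. -/
def Hit (n : ℕ) (d : Fin 3 → ℤ) (S : Set (F[X] × F[X] × F[X])) : Set (Fin 10 → F[X]) :=
  {c | c ∈ Vd n d ∧ ∃ f ∈ S, ∃ x y : RatFunc F, OnK f x y ∧ ∃ g, Eqv g (FK f x y) (mp c)}

open Classical in
/-- The curves of height `n` without exceptions: nonsingular, no rational point of order three, and
`a ≠ 0` in characteristic three. -/
def Gd (n : ℕ) : Set (F[X] × F[X] × F[X]) :=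
  {f | f ∈ Ell F n ∧ (∀ T : EK f, T + T + T = 0 → T = 0) ∧ ((3 : F) ≠ 0 ∨ f.1 ≠ 0)}

end Function

end Pool.AV3
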