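import Pool.Agent.H8.AV3.Stmts
import Pool.Agent.H14.AVS.S5

/-!
# Three-descent over `F(t)`: definitions for stages 2 and 3 (Selmer groups)
-/

set_option autoImplicit false

namespace Pool.AV3

open Polynomial Matrix Pool.AVR

section Ring

variable {R : Type} [CommRing R]

/-- The form `-X²Z + A M²X + D M³ + E M²Z + F MZ² + G Z³`. -/
def sg (A D E F G : R) : Fin 10 → R := ![D, A, E, 0, 0, F, 0, -1, 0, G]

/-- The cubic of the form `sg A D E F G` (here `τ = 1/2`). -/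
def fsg (τ A D E F G : R) : R × R × R :=
  (E, D * F - A ^ 2 * G, A ^ 2 * F ^ 2 * τ ^ 2 + D ^ 2 * G - A ^ 2 * E * G)

/-- The covariant `b₄` of a ternary cubic form. -/
def jb4 (c : Fin 10 → R) : R :=
    -(6 * c 0 * c 3 * c 7 * c 9) + 2 * c 0 * c 3 * c 8 ^ 2 + 9 * c 0 * c 4 * c 6 * c 9 -
    c 0 * c 4 * c 7 * c 8 - 6 * c 0 * c 5 * c 6 * c 8 + 2 * c 0 * c 5 * c 7 ^ 2 +
    2 * c 1 ^ 2 * c 7 * c 9 - 6 * c 1 * c 2 * c 6 * c 9 + 2 * c 1 * c 2 * c 7 * c 8 -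
    c 1 * c 3 * c 4 * c 9 + 2 * c 1 * c 3 * c 5 * c 8 - c 1 * c 4 * c 5 * c 7 +
    2 * c 1 * c 5 ^ 2 * c 6 + 2 * c 2 ^ 2 * c 6 * c 8 + 2 * c 2 * c 3 ^ 2 * c 9 -
    c 2 * c 3 * c 4 * c 8 + 2 * c 2 * c 3 * c 5 * c 7 - c 2 * c 4 * c 5 * c 6

/-- The covariant `b₆` of a ternary cubic form. -/
def jb6 (c : Fin 10 → R) : R :=
    -(27 * c 0 ^ 2 * c 6 ^ 2 * c 9 ^ 2) + 18 * c 0 ^ 2 * c 6 * c 7 * c 8 * c 9 -
    4 * c 0 ^ 2 * c 6 * c 8 ^ 3 - 4 * c 0 ^ 2 * c 7 ^ 3 * c 9 + c 0 ^ 2 * c 7 ^ 2 * c 8 ^ 2 +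
    18 * c 0 * c 1 * c 3 * c 6 * c 9 ^ 2 - 2 * c 0 * c 1 * c 3 * c 7 * c 8 * c 9 -
    12 * c 0 * c 1 * c 4 * c 6 * c 8 * c 9 + 4 * c 0 * c 1 * c 4 * c 7 ^ 2 * c 9 -
    6 * c 0 * c 1 * c 5 * c 6 * c 7 * c 9 + 8 * c 0 * c 1 * c 5 * c 6 * c 8 ^ 2 -
    2 * c 0 * c 1 * c 5 * c 7 ^ 2 * c 8 - 6 * c 0 * c 2 * c 3 * c 6 * c 8 * c 9 +
    8 * c 0 * c 2 * c 3 * c 7 ^ 2 * c 9 - 2 * c 0 * c 2 * c 3 * c 7 * c 8 ^ 2 -
    12 * c 0 * c 2 * c 4 * c 6 * c 7 * c 9 + 4 * c 0 * c 2 * c 4 * c 6 * c 8 ^ 2 +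
    18 * c 0 * c 2 * c 5 * c 6 ^ 2 * c 9 - 2 * c 0 * c 2 * c 5 * c 6 * c 7 * c 8 -
    4 * c 0 * c 3 ^ 3 * c 9 ^ 2 + 4 * c 0 * c 3 ^ 2 * c 4 * c 8 * c 9 +
    8 * c 0 * c 3 ^ 2 * c 5 * c 7 * c 9 - 4 * c 0 * c 3 ^ 2 * c 5 * c 8 ^ 2 -
    4 * c 0 * c 3 * c 4 ^ 2 * c 7 * c 9 - 12 * c 0 * c 3 * c 4 * c 5 * c 6 * c 9 +
    4 * c 0 * c 3 * c 4 * c 5 * c 7 * c 8 + 8 * c 0 * c 3 * c 5 ^ 2 * c 6 * c 8 -
    4 * c 0 * c 3 * c 5 ^ 2 * c 7 ^ 2 + 4 * c 0 * c 4 ^ 3 * c 6 * c 9 -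
    4 * c 0 * c 4 ^ 2 * c 5 * c 6 * c 8 + 4 * c 0 * c 4 * c 5 ^ 2 * c 6 * c 7 -
    4 * c 0 * c 5 ^ 3 * c 6 ^ 2 - 4 * c 1 ^ 3 * c 6 * c 9 ^ 2 +
    8 * c 1 ^ 2 * c 2 * c 6 * c 8 * c 9 - 4 * c 1 ^ 2 * c 2 * c 7 ^ 2 * c 9 +
    c 1 ^ 2 * c 3 ^ 2 * c 9 ^ 2 - 2 * c 1 ^ 2 * c 3 * c 5 * c 7 * c 9 +
    4 * c 1 ^ 2 * c 4 * c 5 * c 6 * c 9 - 4 * c 1 ^ 2 * c 5 ^ 2 * c 6 * c 8 +
    c 1 ^ 2 * c 5 ^ 2 * c 7 ^ 2 + 8 * c 1 * c 2 ^ 2 * c 6 * c 7 * c 9 -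
    4 * c 1 * c 2 ^ 2 * c 6 * c 8 ^ 2 - 2 * c 1 * c 2 * c 3 ^ 2 * c 8 * c 9 +
    4 * c 1 * c 2 * c 3 * c 4 * c 7 * c 9 - 2 * c 1 * c 2 * c 3 * c 5 * c 6 * c 9 -
    2 * c 1 * c 2 * c 3 * c 5 * c 7 * c 8 - 4 * c 1 * c 2 * c 4 ^ 2 * c 6 * c 9 +
    4 * c 1 * c 2 * c 4 * c 5 * c 6 * c 8 - 2 * c 1 * c 2 * c 5 ^ 2 * c 6 * c 7 -
    4 * c 2 ^ 3 * c 6 ^ 2 * c 9 - 4 * c 2 ^ 2 * c 3 ^ 2 * c 7 * c 9 +
    c 2 ^ 2 * c 3 ^ 2 * c 8 ^ 2 + 4 * c 2 ^ 2 * c 3 * c 4 * c 6 * c 9 -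
    2 * c 2 ^ 2 * c 3 * c 5 * c 6 * c 8 + c 2 ^ 2 * c 5 ^ 2 * c 6 ^ 2

/-- The Jacobian `y² = x³ + a x² + b x + c` of a ternary cubic form, as a triple `(a, b, c)`; here
`τ = 1/2`. -/
def Jc (τ : R) (c : Fin 10 → R) : R × R × R :=
  (τ ^ 2 * c 4 ^ 2 - (c 1 * c 8 + c 2 * c 7 + c 3 * c 5), τ * jb4 c, τ ^ 2 * jb6 c)

/-- The translation of a cubic by `η`. -/
def sh (η : R) (f : R × R × R) : R × R × R :=
  (f.1 + 3 * η, f.2.1 + 2 * f.1 * η + 3 * η ^ 2, f.2.2 + f.2.1 * η + f.1 * η ^ 2 + η ^ 3)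

/-- The discriminant of a cubic given as a triple. -/
noncomputable def dsc (f : R × R × R) : R := disc f.1 f.2.1 f.2.2

/-- The number of affine points of the curve of a triple. -/
noncomputable def nET (f : R × R × R) : ℕ := AVS.nE R f.1 f.2.1 f.2.2

/-- Sets of cubics closed under translation. -/
def ShInv (A : Set (R × R × R)) : Prop := ∀ f ∈ A, ∀ η, sh η f ∈ A

/-- Change of variables between forms `sg`. -/
def Up (τ A ε : R) : Matrix (Fin 3) (Fin 3) R := !![1, 0, ε; A * ε, 1, A * ε ^ 2 * τ; 0, 0, 1]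

/-- A good point of a cubic over a field: smooth, and the tangent line is not contained in the
cubic. -/
def Good (c : Fin 10 → R) (v : Fin 3 → R) : Prop :=
  tev c v = 0 ∧ (∃ w, tder c v w ≠ 0) ∧ ∃ w, tder c v w = 0 ∧ tev c w ≠ 0

/-- The number of good vectors. -/
noncomputable def gdk (c : Fin 10 → R) : ℕ := {v | Good c v}.ncard

/-- Cubics not of the form `(X - x)³ + (y + l (X - x))²`; in characteristic three, cubics whose
second coefficient is not a square. -/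
def Nice (f : R × R × R) : Prop :=
  ((3 : R) ≠ 0 → ¬ ∃ x y l : R, f.1 = l ^ 2 - 3 * x ∧ f.2.1 = 3 * x ^ 2 + 2 * l * (y - l * x) ∧
    f.2.2 = (y - l * x) ^ 2 - x ^ 3) ∧ ((3 : R) = 0 → ¬ IsSquare f.1)

end Ring

section FieldDefs

variable {K : Type} [Field K]

/-- The points of the curve of a triple. -/
abbrev PtT (f : K × K × K) : Type := Pt f.1 f.2.1 f.2.2

/-- The form of a point. -/
noncomputable def FQ {f : K × K × K} : PtT f → Fin 10 → K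
  | .zero => FO f.1 f.2.1 f.2.2
  | .some x y _ => FP f.1 f.2.1 x y

/-- The form `c` is equivalent to the form of a point of the curve of `f`. -/
def Cls (f : K × K × K) (c : Fin 10 → K) : Prop :=
  ∃ (P : PtT f) (g : Matrix (Fin 3) (Fin 3) K), Eqv g (FQ P) c

/-- Modulo `π` the vector `v` is a good point of the form `c` with coefficients in `I`. -/
def GdI (I : Set K) (π : K) (c : Fin 10 → K) (v : Fin 3 → K) : Prop :=
  (∀ i, v i ∈ I) ∧ (∃ i, v i / π ∉ I) ∧ tev c v / π ∈ I ∧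
    (∃ w : Fin 3 → K, (∀ i, w i ∈ I) ∧ tder c v w / π ∉ I) ∧
    ∃ w : Fin 3 → K, (∀ i, w i ∈ I) ∧ tder c v w / π ∈ I ∧ tev c w / π ∉ I

/-- The lattice spanned by the columns of `g` is integral for `c`, with a good point `g v`. -/
def KP3 (I : Set K) (π : K) (c : Fin 10 → K) (g : Matrix (Fin 3) (Fin 3) K) (v : Fin 3 → K) :
    Prop :=
  g.det ≠ 0 ∧ (∀ i, tsub c g i / g.det ∈ I) ∧ GdI I π (fun i => tsub c g i / g.det) v

/-- The same lattice (up to homothety) and the same point modulo `π` (up to scaling). -/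
def Eq3 (I : Set K) (π : K) (g : Matrix (Fin 3) (Fin 3) K) (v : Fin 3 → K)
    (g' : Matrix (Fin 3) (Fin 3) K) (v' : Fin 3 → K) : Prop :=
  ∃ (κ : Matrix (Fin 3) (Fin 3) K) (r : K), AVS.GI I κ ∧ r ≠ 0 ∧ g' = r • (g * κ) ∧
    ∃ t : K, AVS.UI I t ∧ ∀ i, ((κ *ᵥ v') i - t * v i) / π ∈ I

/-- `M` inequivalent pairs (lattice, good point) for the form `c`. -/
def LF3 (I : Set K) (π : K) (c : Fin 10 → K) (M : ℕ) : Prop :=
  ∃ (g : Fin M → Matrix (Fin 3) (Fin 3) K) (v : Fin M → Fin 3 → K),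
    (∀ i, KP3 I π c (g i) (v i)) ∧ ∀ i j, i ≠ j → ¬ Eq3 I π (g i) (v i) (g j) (v j)

/-- The coefficients of a triple in a subring of the field. -/
def sub3 {O : ValuationSubring K} (f : O × O × O) : K × K × K := (f.1, f.2.1, f.2.2)

/-- The cubic has no singular point over the extension `L`. -/
def Smt {K L : Type} [Field K] [Field L] (φ : K →+* L) (c : Fin 10 → K) : Prop :=
  ∀ v : Fin 3 → L, v ≠ 0 → tev (fun i => φ (c i)) v = 0 →
    ∃ w, tder (fun i => φ (c i)) v w ≠ 0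

/-- `I` is a valuation ring of `K` with uniformizer `π`. -/
structure Dv (I : Set K) (π : K) : Prop where
  val : ∃ V : ValuationSubring K, (V : Set K) = I
  pi_ne : π ≠ 0
  unif : ∀ x : K, x ∈ I → x ≠ 0 → (x⁻¹ ∉ I ↔ x / π ∈ I)

/-- `z` is the vector `v` of the lattice of `g₀` in the coordinates of the same lattice (up to
powers of `π`) with basis `g`, modulo `π`. -/
def Mk (I : Set K) (π : K) (g₀ : Matrix (Fin 3) (Fin 3) K) (v : Fin 3 → K)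
    (g : Matrix (Fin 3) (Fin 3) K) (z : Fin 3 → K) : Prop :=
  (∀ i, z i ∈ I) ∧ ∃ (κ : Matrix (Fin 3) (Fin 3) K) (k : ℤ), AVS.GI I κ ∧
    g = π ^ k • (g₀ * κ) ∧ ∀ i, ((κ *ᵥ z) i - v i) / π ∈ I

end FieldDefs

section Global

variable {F : Type} [Field F]

/-- The triple over an extension of `F(t)`. -/
noncomputable def k3 {L : Type} [Field L] (ι : RatFunc F →+* L) (f : F[X] × F[X] × F[X]) :
    L × L × L :=
  (ι (AVS.kf f).1, ι (AVS.kf f).2.1, ι (AVS.kf f).2.2)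

open Classical in
/-- The forms over `F(t)` which represent elements of the `3`-Selmer group of `E_f`: at every place
of `F(t)` the form is equivalent to the form of a local point of the curve. -/
def SelSet (f : F[X] × F[X] × F[X]) : Set (Fin 10 → RatFunc F) :=
  {c | (∀ v : IsDedekindDomain.HeightOneSpectrum F[X],
      Cls (k3 (algebraMap (RatFunc F) (v.adicCompletion (RatFunc F))) f)
        (fun i => algebraMap (RatFunc F) (v.adicCompletion (RatFunc F)) (c i))) ∧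
    Cls (k3 (algebraMap (RatFunc F) (RatFunc.CompletionAtInfty F)) f)
      (fun i => algebraMap (RatFunc F) (RatFunc.CompletionAtInfty F) (c i))}

/-- Equivalence of forms over `F(t)`. -/
def selSetoid (f : F[X] × F[X] × F[X]) : Setoid (SelSet f) where
  r c c' := ∃ g, Eqv g c.1 c'.1
  iseqv := ⟨fun _ => ⟨1, Eqv.refl _⟩, fun ⟨g, h⟩ => ⟨g⁻¹, h.symm⟩,
    fun ⟨g, h⟩ ⟨g', h'⟩ => ⟨g * g', h.trans h'⟩⟩

/-- The `3`-Selmer group of `E_f` (as a set): classes of everywhere locally soluble ternary cubic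
forms with Jacobian `E_f`. -/
def Sel3 (f : F[X] × F[X] × F[X]) : Type := Quotient (selSetoid f)

/-- The exponents. -/
def ee (n : ℕ) (d : Fin 3 → ℤ) (i : Fin 10) : ℤ := n + ∑ s, d (tr i s) - ∑ j, d j

/-- One half. -/
noncomputable def hf (F : Type) [Field F] : F[X] := C ((2 : F)⁻¹)

/-- The image of a form modulo a polynomial. -/
noncomputable def md (M : F[X]) (c : Fin 10 → F[X]) : Fin 10 → AdjoinRoot M :=
  fun i => AdjoinRoot.mk M (c i)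

/-- The image of a triple modulo a polynomial. -/
noncomputable def md3 (M : F[X]) (f : F[X] × F[X] × F[X]) :
    AdjoinRoot M × AdjoinRoot M × AdjoinRoot M :=
  (AdjoinRoot.mk M f.1, AdjoinRoot.mk M f.2.1, AdjoinRoot.mk M f.2.2)

/-- The form at infinity (reversed coefficients). -/
noncomputable def cinf (n : ℕ) (d : Fin 3 → ℤ) (c : Fin 10 → F[X]) : Fin 10 → F[X] :=
  fun i => (c i).reflect (ee n d i).toNat

/-- The forms of degree type `d` with Jacobian `E_f` up to translation. -/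
def VJ (n : ℕ) (d : Fin 3 → ℤ) (f : F[X] × F[X] × F[X]) : Set (Fin 10 → F[X]) :=
  {c | c ∈ Vd n d ∧ ∃ p : F[X], Jc (hf F) c = sh p f}

/-- The curves of height `n` (with `a ≠ 0` in characteristic three). -/
def El (F : Type) [Field F] (n : ℕ) : Set (F[X] × F[X] × F[X]) :=
  {f | f ∈ Ell F n ∧ ((3 : F) ≠ 0 ∨ f.1 ≠ 0)}

/-- The local denominators: `(κ - 1) (κ nE / κ^N + 1)`. -/
noncomputable def Bw (P : F[X]) (N : ℕ) (f : F[X] × F[X] × F[X]) : ℝ :=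
  ((Nat.card (AdjoinRoot P) : ℝ) - 1) * ((Nat.card (AdjoinRoot P) : ℝ) *
    nET (md3 (P ^ N) f) / Nat.card (AdjoinRoot (P ^ N)) + 1)

open Classical in
/-- The local denominators for all curves. -/
noncomputable def Bx (P : F[X]) (N : ℕ) (f : F[X] × F[X] × F[X]) : ℝ :=
  if P ^ N ∣ dsc f then (Nat.card (AdjoinRoot P) : ℝ) - 1 else Bw P N f

/-- The local weight at `P`, level `N`. -/
noncomputable def wb (P : F[X]) (N : ℕ) (c : Fin 10 → F[X]) : ℝ :=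
  (gdk (md P c) : ℝ) / Bx P N (Jc (hf F) c)

/-- The product of the local weights at the primes of `S` and at infinity. -/
noncomputable def WB3 (n α β : ℕ) (S : Finset F[X]) (N : ℕ) (c : Fin 10 → F[X]) : ℝ :=
  (∏ P ∈ S, wb P N c) * wb X N (cinf n (dv α β) c)

/-- Stabilisers of the forms of the Selmer group have at most `s` elements modulo scalars. -/
def StB (f : F[X] × F[X] × F[X]) (s : ℕ) : Prop :=
  ∀ c ∈ SelSet f, ∀ T : Finset (Matrix (Fin 3) (Fin 3) (RatFunc F)), (∀ g ∈ T, Eqv g c c) →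
    (∀ g ∈ T, ∀ g' ∈ T, g ≠ g' → ∀ r : RatFunc F, g' ≠ r • g) → T.card ≤ s

/-- A polynomial vector. -/
noncomputable def pv (z : Fin 3 → F[X]) : Fin 3 → RatFunc F :=
  fun i => algebraMap F[X] (RatFunc F) (z i)

/-- The diagonal matrix with the entries `t ^ d_i`. -/
noncomputable def Dg (d : Fin 3 → ℤ) : Matrix (Fin 3) (Fin 3) (RatFunc F) :=
  Matrix.diagonal fun i => (RatFunc.X : RatFunc F) ^ d i

/-- The form `t ^ (-n) c` in the coordinates of the lattice at infinity. -/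
noncomputable def cI (n : ℕ) (d : Fin 3 → ℤ) (c : Fin 10 → F[X]) : Fin 10 → RatFunc F :=
  fun i => algebraMap F[X] (RatFunc F) (c i) / (RatFunc.X : RatFunc F) ^ ee n d i

/-- Reduction modulo `P`. -/
noncomputable def rdP (P : F[X]) (z : Fin 3 → RatFunc F) : Fin 3 → AdjoinRoot P :=
  fun i => AdjoinRoot.mk P (z i).num * Ring.inverse (AdjoinRoot.mk P (z i).denom)

/-- Reduction at infinity. -/
noncomputable def rdI (z : Fin 3 → RatFunc F) : Fin 3 → AdjoinRoot (X : F[X]) :=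
  fun i => AdjoinRoot.mk X (C ((z i).num.coeff (z i).denom.natDegree))

/-- The Euler factors. -/
noncomputable def rhoF (F : Type) (k : ℕ) : ℝ :=
  (1 - 1 / (Nat.card F : ℝ) ^ (2 * k)) * (1 - 1 / (Nat.card F : ℝ) ^ (3 * k))

/-- The product of the Euler factors at the primes of `S` and at infinity. -/
noncomputable def rhoS (S : Finset F[X]) : ℝ := (∏ P ∈ S, rhoF F P.natDegree) * rhoF F 1

end Global

end Pool.AV3
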