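import Pool.Agent.H8.AV3.Stmts
import Pool.Agent.H14.AVR.Final

/-!
# Three-descent over `F(t)`: the final statement of stage 1
-/

set_option autoImplicit false

namespace Pool.AV3

open Polynomial Matrix Pool.AVR

/-- The constant `ζ(2) ζ(3) = q⁸ / ((q - 1) (q² - 1)² (q³ - 1))`, for the factors of the main
term. -/
noncomputable def Zc (F : Type) : ℝ :=
  (Nat.card F : ℝ) ^ 8 / (((Nat.card F : ℝ) - 1) * ((Nat.card F : ℝ) ^ 2 - 1) ^ 2 *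
    ((Nat.card F : ℝ) ^ 3 - 1))

open Classical in
/-- FN1: the final statement of stage 1. -/
def FN1Stmt : Prop :=
  ∀ (F : Type) [Field F] [Finite F], (2 : F) ≠ 0 →
    (∀ n : ℕ, ∀ f ∈ Ell F n, AddGroup.FG (EK f)) ∧
    (∀ n : ℕ, ∀ f ∈ Gd (F := F) n, Nat.card (Mod3 (EK f)) = 3 ^ rk f) ∧
    (∀ n : ℕ, 1 ≤ n → (Fam F n).ncard = Nat.card F ^ (12 * n + 3) ∧
      {f ∈ Fam F n | f ∉ Gd (F := F) n}.ncard ≤ 3 * Nat.card F ^ (11 * n + 3)) ∧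
    ∀ ε : ℝ, 0 < ε → ∃ N : ℕ, ∀ n : ℕ, N ≤ n →
      ∑ᶠ f ∈ Gd (F := F) n, (3 : ℝ) ^ rk f ≤ (1 + 3 * Zc F + ε) * (Gd (F := F) n).ncard ∧
      ∑ᶠ f ∈ Ell F n, (rk f : ℝ) ≤ (2 / 3 + Zc F / 2 + ε) * (Ell F n).ncard

end Pool.AV3
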