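import Pool.Agent.H8.AV3.Base

/-!
# Three-descent over `F(t)`: statements of the modules (stage 1)
-/

set_option autoImplicit false

namespace Pool.AV3

open Polynomial Matrix Pool.AVR

/-- The change of variables which moves the base point to the point `T = (x₁, y₁)`, `y₁ ≠ 0`. Here
`t` is the slope of the tangent at `T`, `W = Q - T = (xW, yW)`, `m₁` is the slope of the line
through `T` and `W`, and `ms` is the slope of the line through `W` and `-2T`. -/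
def hA {K : Type} [Field K] (x₁ y₁ t m₁ xW yW ms : K) : Matrix (Fin 3) (Fin 3) K :=
  !![m₁ * (t - ms) + (xW - x₁), m₁,
      m₁ * (-xW - (t - ms) * ms) - (xW - x₁) * ms + (yW + y₁ + t * (xW - x₁));
    x₁ * (t - ms) - 2 * y₁, x₁, x₁ * (-xW - (t - ms) * ms) + 2 * y₁ * ms;
    t - ms, 1, -xW - (t - ms) * ms]

/-- TRA: change of variables for a point with `y₁ ≠ 0`, `T ≠ Q`. -/
def TRAStmt : Prop :=
  ∀ (K : Type) [Field K], (2 : K) ≠ 0 →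
    ∀ a b c x₁ y₁ t xt yt m₁ xW yW x₀ y₀ ms xp yp : K, y₁ ≠ 0 →
    OnC a b c x₁ y₁ → 2 * y₁ * t = 3 * x₁ ^ 2 + 2 * a * x₁ + b →
    xt = t ^ 2 - a - 2 * x₁ → yt = y₁ + t * (xt - x₁) →
    yW = y₁ + m₁ * (xW - x₁) → -y₀ = y₁ + m₁ * (x₀ - x₁) →
    x₁ + xW + x₀ = m₁ ^ 2 - a →
    x₁ * xW + x₁ * x₀ + xW * x₀ = b - 2 * m₁ * (y₁ - m₁ * x₁) →
    x₁ * xW * x₀ = (y₁ - m₁ * x₁) ^ 2 - c →
    yt = yW + ms * (xt - xW) → -yp = yW + ms * (xp - xW) →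
    xW + xt + xp = ms ^ 2 - a →
    xW * xt + xW * xp + xt * xp = b - 2 * ms * (yW - ms * xW) →
    xW * xt * xp = (yW - ms * xW) ^ 2 - c →
    yW + y₁ + t * (xW - x₁) ≠ 0 →
    Eqv (hA x₁ y₁ t m₁ xW yW ms) (FP a b x₀ y₀) (FP a b xp yp)

/-- TRB: change of variables for a point `T = (x₁, 0)` of order two. -/
def TRBStmt : Prop :=
  ∀ (K : Type) [Field K], (2 : K) ≠ 0 →
    ∀ a b c x₁ m₁ xW yW x₀ y₀ : K,
    OnC a b c x₁ 0 → yW = m₁ * (xW - x₁) → -y₀ = m₁ * (x₀ - x₁) →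
    x₁ + xW + x₀ = m₁ ^ 2 - a →
    x₁ * xW + x₁ * x₀ + xW * x₀ = b + 2 * m₁ ^ 2 * x₁ →
    x₁ * xW * x₀ = (m₁ * x₁) ^ 2 - c → xW ≠ x₁ → 3 * x₁ ^ 2 + 2 * a * x₁ + b ≠ 0 →
    Eqv !![xW - x₁, m₁, m₁ * (xW - x₁) - m₁ * x₁;
        0, x₁, 3 * x₁ ^ 2 + 2 * a * x₁ + b - x₁ ^ 2;
        0, 1, -x₁] (FP a b x₀ y₀) (FP a b xW yW)

/-- TRC: change of variables for `T = Q`; here `t` is the slope of the tangent at `Q`. -/
def TRCStmt : Prop :=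
  ∀ (K : Type) [Field K], (2 : K) ≠ 0 →
    ∀ a b c x₀ y₀ t xp yp : K, y₀ ≠ 0 →
    OnC a b c x₀ y₀ → 2 * y₀ * t = 3 * x₀ ^ 2 + 2 * a * x₀ + b →
    xp = t ^ 2 - a - 2 * x₀ → yp = y₀ + t * (xp - x₀) →
    Eqv !![-t, -1, x₀ - t ^ 2; x₀, 0, x₀ * t - 2 * y₀; 1, 0, t] (FP a b x₀ y₀) (FP a b xp yp)

/-- ONT: the points of the cubic are parametrised by the points of the curve. -/
def ONTStmt : Prop :=
  ∀ (K : Type) [Field K] [DecidableEq K], (2 : K) ≠ 0 → ∀ a b c : K, (cub a b c).Separable →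
    ∀ (x₀ y₀ : K), (E a b c).toAffine.Nonsingular x₀ y₀ →
      (∀ T : Pt a b c, tev (FP a b x₀ y₀) (phi x₀ y₀ T) = 0) ∧
      ∀ v : Fin 3 → K, v ≠ 0 → tev (FP a b x₀ y₀) v = 0 →
        ∃ T : Pt a b c, ∃ s : K, s ≠ 0 ∧ v = s • phi x₀ y₀ T

/-- TRS: change of the base point. -/
def TRSStmt : Prop :=
  ∀ (K : Type) [Field K] [DecidableEq K], (2 : K) ≠ 0 → ∀ a b c : K, (cub a b c).Separable →
    ∀ (x₀ y₀ : K) (h₀ : (E a b c).toAffine.Nonsingular x₀ y₀) (T : Pt a b c),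
      (WeierstrassCurve.Affine.Point.some x₀ y₀ h₀ : Pt a b c) ≠ T + T + T →
      ∃ (x' y' : K) (h' : (E a b c).toAffine.Nonsingular x' y') (g : Matrix (Fin 3) (Fin 3) K),
        (WeierstrassCurve.Affine.Point.some x' y' h' : Pt a b c) =
          WeierstrassCurve.Affine.Point.some x₀ y₀ h₀ - (T + T + T) ∧
        Eqv g (FP a b x₀ y₀) (FP a b x' y') ∧ ∃ s : K, s ≠ 0 ∧ g *ᵥ e1 = s • phi x₀ y₀ T

/-- FLT: the points with `3T = Q` are flexes. -/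
def FLTStmt : Prop :=
  ∀ (K : Type) [Field K] [DecidableEq K], (2 : K) ≠ 0 → ∀ a b c : K, (cub a b c).Separable →
    ∀ (x₀ y₀ : K) (h₀ : (E a b c).toAffine.Nonsingular x₀ y₀) (T : Pt a b c),
      (WeierstrassCurve.Affine.Point.some x₀ y₀ h₀ : Pt a b c) = T + T + T →
      ∃ (w : Fin 3 → K) (κ : K), (∀ r : K, w ≠ r • phi x₀ y₀ T) ∧
        ∀ s t : K, tev (FP a b x₀ y₀) (s • phi x₀ y₀ T + t • w) = κ * t ^ 3

/-- NFX: the base point is not a flex. -/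
def NFXStmt : Prop :=
  ∀ (K : Type) [Field K] [Infinite K] (a b x y κ : K) (v : Fin 3 → K),
    (∀ s t : K, tev (FP a b x y) (s • (e1 : Fin 3 → K) + t • v) = κ * t ^ 3) → v 0 = 0 ∧ v 2 = 0

/-- UNQ: uniqueness of the normal form. -/
def UNQStmt : Prop :=
  ∀ (K : Type) [Field K], (2 : K) ≠ 0 → ∀ (a b x y a' b' x' y' s : K)
    (g : Matrix (Fin 3) (Fin 3) K), Eqv g (FP a b x y) (FP a' b' x' y') →
    g *ᵥ (e1 : Fin 3 → K) = s • (e1 : Fin 3 → K) →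
    ∃ r η : K, r ≠ 0 ∧ g = uni r η ∧ x' = x - η ∧ y' = y ∧ a' = a + 3 * η ∧
      b' = b + 2 * a * η + 3 * η ^ 2

/-- INJ: the form determines the class of the point modulo `3 E(K)` (and the curve up to a
translation of `x`). -/
def INJStmt : Prop :=
  ∀ (K : Type) [Field K] [DecidableEq K] [Infinite K], (2 : K) ≠ 0 →
    ∀ a b c a' b' c' : K, (cub a b c).Separable →
    ∀ (x y : K) (h : (E a b c).toAffine.Nonsingular x y) (x' y' : K), OnC a' b' c' x' y' →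
    ∀ g : Matrix (Fin 3) (Fin 3) K, Eqv g (FP a b x y) (FP a' b' x' y') →
      ∃ (T : Pt a b c) (η : K) (h'' : (E a b c).toAffine.Nonsingular (x' + η) y'),
        a' = a + 3 * η ∧ b' = b + 2 * a * η + 3 * η ^ 2 ∧
        c' = c + b * η + a * η ^ 2 + η ^ 3 ∧
        (WeierstrassCurve.Affine.Point.some x y h : Pt a b c) - (T + T + T) =
          WeierstrassCurve.Affine.Point.some (x' + η) y' h'' ∧
        (∃ s : K, s ≠ 0 ∧ g *ᵥ e1 = s • phi x y T) ∧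
        (T = 0 → ∃ r : K, r ≠ 0 ∧ g = uni r η)

/-- STB: stabilisers are trivial. -/
def STBStmt : Prop :=
  ∀ (K : Type) [Field K] [DecidableEq K] [Infinite K], (2 : K) ≠ 0 →
    ∀ a b c : K, (cub a b c).Separable → (∀ T : Pt a b c, T + T + T = 0 → T = 0) →
    ((3 : K) ≠ 0 ∨ a ≠ 0) → ∀ x y : K, OnC a b c x y → ∀ g : Matrix (Fin 3) (Fin 3) K,
      Eqv g (FP a b x y) (FP a b x y) → ∃ r : K, r ≠ 0 ∧ g = r • (1 : Matrix (Fin 3) (Fin 3) K)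

/-- FLX: a form with a rational flex comes from a point of `3 E(K)`. -/
def FLXStmt : Prop :=
  ∀ (K : Type) [Field K] [DecidableEq K] [Infinite K], (2 : K) ≠ 0 → ∀ a b c : K,
    (cub a b c).Separable → ∀ (x y : K) (h : (E a b c).toAffine.Nonsingular x y)
    (A B : Fin 3 → K) (κ : K), A ≠ 0 → (∀ r : K, B ≠ r • A) →
    (∀ s t : K, tev (FP a b x y) (s • A + t • B) = κ * t ^ 3) →
      ∃ T : Pt a b c, (WeierstrassCurve.Affine.Point.some x y h : Pt a b c) = T + T + T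

/-- SNG: the cubic is smooth at its rational points. -/
def SNGStmt : Prop :=
  ∀ (K : Type) [Field K] [DecidableEq K], (2 : K) ≠ 0 → ∀ a b c : K, (cub a b c).Separable →
    ∀ x y : K, OnC a b c x y → ∀ v : Fin 3 → K, v ≠ 0 → tev (FP a b x y) v = 0 →
      ∃ w : Fin 3 → K, tder (FP a b x y) v w ≠ 0

/-- LAT: an integral form. -/
def LATStmt : Prop :=
  ∀ (K : Type) [Field K] (O : Subring K) (a b c u v w r s : K),
    a ∈ O → b ∈ O → c ∈ O → u ∈ O → v ∈ O → w ∈ O → r ∈ O → s ∈ O →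
    w ≠ 0 → r * w ^ 3 + s * u = 1 →
    v ^ 2 = u ^ 3 + a * u ^ 2 * w ^ 2 + b * u * w ^ 4 + c * w ^ 6 →
    ∃ c' : Fin 10 → K, (∀ i, c' i ∈ O) ∧
      Eqv !![w ^ 2, -(v * s ^ 2 * w), -(v * s / w); 0, 1, 0; 0, 0, 1]
        (FP a b (u / w ^ 2) (v / w ^ 3)) c'

/-- CPR: coprimality. -/
def CPRStmt : Prop :=
  ∀ (R : Type) [CommRing R] (a b c u v w : R), IsCoprime w v →
    v ^ 2 = u ^ 3 + a * u ^ 2 * w ^ 2 + b * u * w ^ 4 + c * w ^ 6 → IsCoprime (w ^ 3) u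

/-- SCL: scaling. -/
def SCLStmt : Prop :=
  ∀ (K : Type) [Field K] (a b x y t : K), t ≠ 0 →
    Eqv (Matrix.diagonal ![t, t ^ 2, 1]) (FP a b x y)
      (t • FP (a / t ^ 2) (b / t ^ 4) (x / t ^ 2) (y / t ^ 3))

/-- KEY: every point is represented by an integral form. -/
def KEYStmt : Prop :=
  ∀ (F : Type) [Field F] [Finite F], (2 : F) ≠ 0 → ∀ (n : ℕ) (f : F[X] × F[X] × F[X]),
    f ∈ Fam F n → ∀ x y : RatFunc F, OnK f x y → y ≠ 0 →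
    ∃ d : Fin 3 → ℤ, ∃ c : Fin 10 → F[X], c ∈ Vd n d ∧ ∃ g, Eqv g (FK f x y) (mp c)

/-- SRT: sorting the degrees. -/
def SRTStmt : Prop :=
  ∀ (F : Type) [Field F] (n : ℕ) (d : Fin 3 → ℤ) (c : Fin 10 → F[X]), c ∈ Vd n d →
    ∃ (α β : ℕ) (c' : Fin 10 → F[X]), c' ∈ Vd n (dv α β) ∧ ∃ g, Eqv g c c'

/-- CSP: nontrivial classes are represented in bounded degrees. -/
def CSPStmt : Prop :=
  ∀ (F : Type) [Field F] [DecidableEq (RatFunc F)], (2 : F) ≠ 0 →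
    ∀ (n α β : ℕ) (f : F[X] × F[X] × F[X]),
    (cubK f).Separable → ∀ (x y : RatFunc F)
      (h : (E (algebraMap F[X] (RatFunc F) f.1) (algebraMap F[X] (RatFunc F) f.2.1)
        (algebraMap F[X] (RatFunc F) f.2.2)).toAffine.Nonsingular x y),
      (¬ ∃ T : EK f, (WeierstrassCurve.Affine.Point.some x y h : EK f) = T + T + T) →
      ∀ c ∈ Vd n (dv α β), ∀ g, Eqv g (FK f x y) (mp c) → α ≤ n ∧ β ≤ n

/-- CNV: the number of forms. -/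
def CNVStmt : Prop :=
  ∀ (F : Type) [Field F] [Finite F] (n α β : ℕ), α ≤ n → β ≤ n →
    (Vd n (dv α β) : Set (Fin 10 → F[X])).Finite ∧
      (Vd n (dv α β) : Set (Fin 10 → F[X])).ncard ≤
        Nat.card F ^ (10 * n + 10 + (2 * α + β - (n + 1)) + (α + β - (n + 1)))

/-- GRC: the groups. -/
def GRCStmt : Prop :=
  ∀ (F : Type) [Field F] [Finite F],
    (∀ α β : ℕ, (G3 (dv α β) : Set (Matrix (Fin 3) (Fin 3) F[X])).Finite) ∧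
    (Nat.card F ^ 3 - 1) * (Nat.card F ^ 3 - Nat.card F) * (Nat.card F ^ 3 - Nat.card F ^ 2) ≤
      (G3 (dv 0 0) : Set (Matrix (Fin 3) (Fin 3) F[X])).ncard ∧
    (∀ m : ℕ, 1 ≤ m → (Nat.card F ^ 2 - 1) * (Nat.card F ^ 2 - Nat.card F) *
      ((Nat.card F - 1) * Nat.card F ^ (2 * m + 2)) ≤
        (G3 (dv 0 m) : Set (Matrix (Fin 3) (Fin 3) F[X])).ncard) ∧
    (∀ m : ℕ, 1 ≤ m → (Nat.card F ^ 2 - 1) * (Nat.card F ^ 2 - Nat.card F) *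
      ((Nat.card F - 1) * Nat.card F ^ (2 * m + 2)) ≤
        (G3 (dv m 0) : Set (Matrix (Fin 3) (Fin 3) F[X])).ncard) ∧
    ∀ α β : ℕ, 1 ≤ α → 1 ≤ β → (Nat.card F - 1) ^ 3 * Nat.card F ^ (2 * α + 2 * β + 3) ≤
      (G3 (dv α β) : Set (Matrix (Fin 3) (Fin 3) F[X])).ncard

/-- ACT: the groups act. -/
def ACTStmt : Prop :=
  ∀ (F : Type) [Field F] (n : ℕ) (d : Fin 3 → ℤ) (c : Fin 10 → F[X])
    (g : Matrix (Fin 3) (Fin 3) F[X]), c ∈ Vd n d → g ∈ G3 d → ∃ c' ∈ Vd n d, Eqv g c c'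

/-- UNI: translations between two curves of height `n`. -/
def UNIStmt : Prop :=
  ∀ (F : Type) [Field F] (n : ℕ) (f f' : F[X] × F[X] × F[X]), f ∈ Fam F n → f' ∈ Fam F n →
    ∀ η : RatFunc F,
    algebraMap F[X] (RatFunc F) f'.1 = algebraMap F[X] (RatFunc F) f.1 + 3 * η →
    algebraMap F[X] (RatFunc F) f'.2.1 = algebraMap F[X] (RatFunc F) f.2.1 +
      2 * algebraMap F[X] (RatFunc F) f.1 * η + 3 * η ^ 2 →
    algebraMap F[X] (RatFunc F) f'.2.2 = algebraMap F[X] (RatFunc F) f.2.2 +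
      algebraMap F[X] (RatFunc F) f.2.1 * η + algebraMap F[X] (RatFunc F) f.1 * η ^ 2 + η ^ 3 →
    ∃ p : F[X], p.natDegree ≤ 2 * n ∧ η = algebraMap F[X] (RatFunc F) p

open Classical in
/-- FIN: the counting inequality. -/
def FINStmt : Prop :=
  ∀ (F : Type) [Field F] [Finite F], (2 : F) ≠ 0 → ∀ (n : ℕ) (S : Set (F[X] × F[X] × F[X])),
    S ⊆ Gd n → (∀ f ∈ S, Finite (Mod3 (EK f))) ∧
      ∑ᶠ f ∈ S, ((Nat.card (Mod3 (EK f)) : ℝ) - 1) ≤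
        (Nat.card F : ℝ) ^ (2 * n + 1) * ((Nat.card F : ℝ) - 1) *
          ∑ α ∈ Finset.range (n + 1), ∑ β ∈ Finset.range (n + 1),
            ((Hit n (dv α β) S).ncard : ℝ) /
              (G3 (dv α β) : Set (Matrix (Fin 3) (Fin 3) F[X])).ncard

/-- SUM: the numerical evaluation. -/
def SUMStmt : Prop :=
  ∀ (q n : ℕ) (V G : ℕ → ℕ → ℝ), 2 ≤ q →
    (∀ α β, α ≤ n → β ≤ n → 0 ≤ V α β ∧
      V α β ≤ (q : ℝ) ^ (10 * n + 10 + (2 * α + β - (n + 1)) + (α + β - (n + 1)))) →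
    ((q : ℝ) ^ 3 - 1) * ((q : ℝ) ^ 3 - q) * ((q : ℝ) ^ 3 - (q : ℝ) ^ 2) ≤ G 0 0 →
    (∀ m : ℕ, 1 ≤ m → ((q : ℝ) ^ 2 - 1) * ((q : ℝ) ^ 2 - q) *
      (((q : ℝ) - 1) * (q : ℝ) ^ (2 * m + 2)) ≤ G 0 m) →
    (∀ m : ℕ, 1 ≤ m → ((q : ℝ) ^ 2 - 1) * ((q : ℝ) ^ 2 - q) *
      (((q : ℝ) - 1) * (q : ℝ) ^ (2 * m + 2)) ≤ G m 0) →
    (∀ α β : ℕ, 1 ≤ α → 1 ≤ β → ((q : ℝ) - 1) ^ 3 * (q : ℝ) ^ (2 * α + 2 * β + 3) ≤ G α β) →
    (q : ℝ) ^ (2 * n + 1) * ((q : ℝ) - 1) *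
        ∑ α ∈ Finset.range (n + 1), ∑ β ∈ Finset.range (n + 1), V α β / G α β ≤
      (q : ℝ) ^ (12 * n + 11) *
          (3 / (((q : ℝ) - 1) * ((q : ℝ) ^ 2 - 1) ^ 2 * ((q : ℝ) ^ 3 - 1))) +
        ((n : ℝ) + 1) ^ 2 * (q : ℝ) ^ (11 * n + 7) / ((q : ℝ) - 1) ^ 2

/-- DEN: the exceptional curves are rare. -/
def DENStmt : Prop :=
  ∀ (F : Type) [Field F] [Finite F], (2 : F) ≠ 0 → ∀ n : ℕ, 1 ≤ n →
    {f | f ∈ Ell F n ∧ f ∉ Gd (F := F) n}.ncard ≤ Nat.card F ^ (11 * n + 3)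

/-- RNK: the rank and `G / 3G`. -/
def RNKStmt : Prop :=
  ∀ (G : Type) [AddCommGroup G], AddGroup.FG G → Finite (Mod3 G) ∧
    3 ^ Module.finrank ℤ G ≤ Nat.card (Mod3 G) ∧
    ((∀ g : G, g + g + g = 0 → g = 0) → 3 ^ Module.finrank ℤ G = Nat.card (Mod3 G))

end Pool.AV3
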