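import Pool.Agent.H8.AV3.Base2

/-!
# Three-descent over `F(t)`, stage 2: algebra over a field and local theory
-/

set_option autoImplicit false

namespace Pool.AV3

open Polynomial Matrix Pool.AVR

/-- JER: equivalent forms have the same Jacobian, up to a translation. -/
def JERStmt : Prop :=
  ∀ (R : Type) [CommRing R] [IsLocalRing R] (τ : R), 2 * τ = 1 →
    ∀ (g : Matrix (Fin 3) (Fin 3) R) (c c' : Fin 10 → R), Eqv g c c' →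
      ∃ η : R, Jc τ c' = sh η (Jc τ c)

/-- SMO: the cubics of the points are smooth. -/
def SMOStmt : Prop :=
  ∀ (K L : Type) [Field K] [Field L] (φ : K →+* L), (2 : K) ≠ 0 → ∀ f : K × K × K,
    dsc f ≠ 0 → ∀ P : PtT f, Smt φ (FQ P)

/-- WNG: a smooth plane cubic with a rational flex has a Weierstrass equation. -/
def WNGStmt : Prop :=
  ∀ (K : Type) [Field K] [Infinite K], (2 : K) ≠ 0 → ∀ c : Fin 10 → K,
    Smt (algebraMap K (AlgebraicClosure K)) c → ∀ (A B : Fin 3 → K) (κ : K), A ≠ 0 →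
    (∀ r : K, B ≠ r • A) → (∀ s t : K, tev c (s • A + t • B) = κ * t ^ 3) →
    ∃ (g : Matrix (Fin 3) (Fin 3) K) (f : K × K × K), Eqv g c (FO f.1 f.2.1 f.2.2)

/-- CLT: the forms of the points `Q` and `Q - 3 T` are equivalent. -/
def CLTStmt : Prop :=
  ∀ (K : Type) [Field K] [DecidableEq K] [Infinite K], (2 : K) ≠ 0 → ∀ f : K × K × K,
    dsc f ≠ 0 → ∀ Q T : PtT f, ∃ g, Eqv g (FQ Q) (FQ (Q - (T + T + T)))

/-- CLI: only those. -/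
def CLIStmt : Prop :=
  ∀ (K : Type) [Field K] [DecidableEq K] [Infinite K], (2 : K) ≠ 0 → ∀ f : K × K × K,
    dsc f ≠ 0 → ((3 : K) ≠ 0 ∨ f.1 ≠ 0) → ∀ Q Q' : PtT f, (∃ g, Eqv g (FQ Q) (FQ Q')) →
    ∃ T : PtT f, Q - Q' = T + T + T

/-- TOR3: the points of order three. -/
def TOR3Stmt : Prop :=
  ∀ (K : Type) [Field K] [DecidableEq K], (2 : K) ≠ 0 → ∀ f : K × K × K, dsc f ≠ 0 →
    {T : PtT f | T + T + T = 0}.Finite ∧ {T : PtT f | T + T + T = 0}.ncard ≤ 9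

/-- TRT: the change of the base point is a translation. The notation is that of TRA; `(X, Y)` is a
point, `M` is the slope of the line through `(X, Y)` and `-(xp, yp)`, `l` is the slope of the line
through `(x₁, y₁)` and `(X, Y)`, `(x₂, y₂) = (x₁, y₁) + (X, Y)`, and `m₂` is the slope of the line
through `(x₂, y₂)` and `-(x₀, y₀)`. -/
def TRTStmt : Prop :=
  ∀ (K : Type) [Field K], (2 : K) ≠ 0 →
    ∀ a b c x₁ y₁ t xt yt m₁ xW yW x₀ y₀ ms xp yp : K, y₁ ≠ 0 →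
    OnC a b c x₁ y₁ → 2 * y₁ * t = 3 * x₁ ^ 2 + 2 * a * x₁ + b →
    xt = t ^ 2 - a - 2 * x₁ → yt = y₁ + t * (xt - x₁) →
    yW = y₁ + m₁ * (xW - x₁) → -y₀ = y₁ + m₁ * (x₀ - x₁) →
    x₁ + xW + x₀ = m₁ ^ 2 - a →
    x₁ * xW + x₁ * x₀ + xW * x₀ = b - 2 * m₁ * (y₁ - m₁ * x₁) →
    x₁ * xW * x₀ = (y₁ - m₁ * x₁) ^ 2 - c →
    yt = yW + ms * (xt - xW) → -yp = yW + ms * (xp - xW) →
    xW + xt + xp = ms ^ 2 - a →
    xW * xt + xW * xp + xt * xp = b - 2 * ms * (yW - ms * xW) →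
    xW * xt * xp = (yW - ms * xW) ^ 2 - c →
    yW + y₁ + t * (xW - x₁) ≠ 0 →
    ∀ X Y M l x₂ y₂ m₂ : K, OnC a b c X Y → X ≠ xp → M * (X - xp) = Y + yp →
    ((X ≠ x₁ ∧ l * (X - x₁) = Y - y₁) ∨ (X = x₁ ∧ Y = y₁ ∧ l = t)) →
    x₂ = l ^ 2 - a - x₁ - X → -y₂ = y₁ + l * (x₂ - x₁) → x₂ ≠ x₀ →
    m₂ * (x₂ - x₀) = y₂ + y₀ →
    (X - xW) + (t - ms) * (M - ms) ≠ 0 ∧
    hA x₁ y₁ t m₁ xW yW ms *ᵥ ![M, X, 1] =
      ((X - xW) + (t - ms) * (M - ms)) • ![m₂, x₂, 1]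

/-- TRG: the same in terms of the group law. -/
def TRGStmt : Prop :=
  ∀ (K : Type) [Field K] [DecidableEq K], (2 : K) ≠ 0 → ∀ a b c : K, (cub a b c).Separable →
    ∀ (x₀ y₀ : K) (h₀ : (E a b c).toAffine.Nonsingular x₀ y₀) (x₁ y₁ : K)
      (h₁ : (E a b c).toAffine.Nonsingular x₁ y₁), y₁ ≠ 0 →
      ∀ T : Pt a b c, T = WeierstrassCurve.Affine.Point.some x₁ y₁ h₁ →
      (WeierstrassCurve.Affine.Point.some x₀ y₀ h₀ : Pt a b c) ≠ T →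
      (WeierstrassCurve.Affine.Point.some x₀ y₀ h₀ : Pt a b c) ≠ T + T + T →
      ∃ (x' y' : K) (h' : (E a b c).toAffine.Nonsingular x' y') (g : Matrix (Fin 3) (Fin 3) K),
        (WeierstrassCurve.Affine.Point.some x' y' h' : Pt a b c) =
          WeierstrassCurve.Affine.Point.some x₀ y₀ h₀ - (T + T + T) ∧
        Eqv g (FP a b x₀ y₀) (FP a b x' y') ∧
        (∀ m : K, x₁ ≠ x₀ → m * (x₁ - x₀) = y₁ + y₀ →
          ∃ s : K, s ≠ 0 ∧ g *ᵥ (e1 : Fin 3 → K) = s • ![m, x₁, 1]) ∧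
        ∀ (x₂ y₂ : K) (h₂ : (E a b c).toAffine.Nonsingular x₂ y₂) (X Y : K)
          (h : (E a b c).toAffine.Nonsingular X Y),
          (WeierstrassCurve.Affine.Point.some x₂ y₂ h₂ : Pt a b c) =
            T + WeierstrassCurve.Affine.Point.some X Y h → x₂ ≠ x₀ → X ≠ x' →
          ∀ M m₂ : K, M * (X - x') = Y + y' → m₂ * (x₂ - x₀) = y₂ + y₀ →
          ∃ s : K, s ≠ 0 ∧ g *ᵥ ![M, X, 1] = s • ![m₂, x₂, 1]

/-- LTL: the lattice of a point of the cubic. -/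
def LTLStmt : Prop :=
  ∀ (L : Type) [Field L] (O : ValuationSubring L) (π : L), AVS.Loc L O π →
    ∀ a b c x y : L, a ∈ O → b ∈ O → c ∈ O → OnC a b c x y →
    ∃ (g : Matrix (Fin 3) (Fin 3) L) (v : Fin 3 → L) (s : L),
      KP3 (O : Set L) π (FP a b x y) g v ∧ s ≠ 0 ∧ g *ᵥ v = s • (e1 : Fin 3 → L) ∧
      ∀ X Y M : L, OnC a b c X Y → X ∈ O → X ≠ x → M * (X - x) = Y + y →
        ∀ (z : Fin 3 → L) (r : L), r ≠ 0 → g *ᵥ z = r • ![M, X, 1] →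
        ¬ ∃ t : L, AVS.UI (O : Set L) t ∧ ∀ i, (z i - t * v i) / π ∈ O

/-- INF3: the group of local points is infinite. -/
def INF3Stmt : Prop :=
  ∀ (L : Type) [Field L] (O : ValuationSubring L) (π : L), AVS.Loc L O π →
    ∀ f : L × L × L, dsc f ≠ 0 → Infinite (PtT f)

/-- LAV: a base point outside a finite set. -/
def LAVStmt : Prop :=
  ∀ (L : Type) [Field L] (O : ValuationSubring L) (π : L), AVS.Loc L O π →
    ∀ f : L × L × L, dsc f ≠ 0 → ∀ c : Fin 10 → L, Cls f c → ∀ B : Set (PtT f), B.Finite →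
    ∃ Q : PtT f, Q ∉ B ∧ ∃ g, Eqv g (FQ Q) c

/-- LCU3: many pairs (lattice, good point). -/
def LCU3Stmt : Prop :=
  ∀ (L : Type) [Field L] (O : ValuationSubring L) (π : L), AVS.Loc L O π → ∀ (a b c : O),
    disc a b c ≠ 0 → ∀ c₀ : Fin 10 → L, Cls ((a : L), (b : L), (c : L)) c₀ →
    LF3 (O : Set L) π c₀ 1 ∧
    ∀ N : ℕ, disc a b c ∉ (IsLocalRing.maximalIdeal O) ^ N →
      ∃ M : ℕ, LF3 (O : Set L) π c₀ M ∧
        AVS.nE (AVS.ON O N) (Ideal.Quotient.mk _ a) (Ideal.Quotient.mk _ b)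
          (Ideal.Quotient.mk _ c) + AVS.kap O ^ (N - 1) ≤ M * AVS.kap O ^ (N - 1)

/-- STL: stabilisers over a field. -/
def STLStmt : Prop :=
  ∀ (K : Type) [Field K] [DecidableEq K] [Infinite K], (2 : K) ≠ 0 → ∀ f : K × K × K,
    dsc f ≠ 0 → ((3 : K) ≠ 0 ∨ f.1 ≠ 0) → Infinite (PtT f) → ∀ c : Fin 10 → K, Cls f c →
    ∀ T : Finset (Matrix (Fin 3) (Fin 3) K), (∀ g ∈ T, Eqv g c c) →
      (∀ g ∈ T, ∀ g' ∈ T, g ≠ g' → ∀ r : K, g' ≠ r • g) →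
      T.card ≤ {T : PtT f | T + T + T = 0}.ncard

/-- T3N: no points of order three. -/
def T3NStmt : Prop :=
  ∀ (L : Type) [Field L] [DecidableEq L] (O : ValuationSubring L) (π : L), AVS.Loc L O π →
    ((3 : L) = 0 ∨ (3 : L)⁻¹ ∈ O) → ∀ a b c : O, disc a b c ≠ 0 →
    ∀ (k : Type) [CommRing k] [Nontrivial k] (ψ : O →+* k), Nice (ψ a, ψ b, ψ c) →
    ∀ T : PtT ((a : L), (b : L), (c : L)), T + T + T = 0 → T = 0

/-- GIR: matrices invertible over a valuation ring. -/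
def GIRStmt : Prop :=
  ∀ (K : Type) [Field K] (I : Set K) (π : K), Dv I π →
    AVS.GI I (1 : Matrix (Fin 3) (Fin 3) K) ∧
    (∀ g h : Matrix (Fin 3) (Fin 3) K, AVS.GI I g → AVS.GI I h → AVS.GI I (g * h)) ∧
    (∀ g : Matrix (Fin 3) (Fin 3) K, AVS.GI I g → AVS.GI I g⁻¹ ∧ g.det ≠ 0) ∧
    (∀ (g : Matrix (Fin 3) (Fin 3) K) (v : Fin 3 → K), AVS.MI I g → (∀ i, v i ∈ I) →
      (∀ i, (g *ᵥ v) i ∈ I) ∧ ((∀ i, v i / π ∈ I) → ∀ i, (g *ᵥ v) i / π ∈ I)) ∧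
    (∀ (c : Fin 10 → K) (g : Matrix (Fin 3) (Fin 3) K) (v w : Fin 3 → K), (∀ i, c i ∈ I) →
      AVS.MI I g → (∀ i, v i ∈ I) → (∀ i, w i ∈ I) → tev c v ∈ I ∧ tder c v w ∈ I ∧
        ∀ i, tsub c g i ∈ I) ∧
    ∀ (c : Fin 10 → K) (v v' : Fin 3 → K) (t : K), (∀ i, c i ∈ I) → (∀ i, v i ∈ I) →
      (∀ i, v' i ∈ I) → AVS.UI I t → (∀ i, (v' i - t * v i) / π ∈ I) →
      (GdI I π c v ↔ GdI I π c v')

/-- EQR: the equivalence relation on pairs. -/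
def EQRStmt : Prop :=
  ∀ (K : Type) [Field K] (I : Set K) (π : K), Dv I π →
    (∀ (g g' : Matrix (Fin 3) (Fin 3) K) (v v' : Fin 3 → K), g.det ≠ 0 → (∀ i, v i ∈ I) →
      (∀ i, v' i ∈ I) → Eq3 I π g v g' v' → Eq3 I π g' v' g v) ∧
    (∀ (g g' g'' : Matrix (Fin 3) (Fin 3) K) (v v' v'' : Fin 3 → K), (∀ i, v i ∈ I) →
      (∀ i, v' i ∈ I) → (∀ i, v'' i ∈ I) → Eq3 I π g v g' v' → Eq3 I π g' v' g'' v'' →
      Eq3 I π g v g'' v'')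

/-- MKE: existence of the marks. -/
def MKEStmt : Prop :=
  ∀ (K : Type) [Field K] (I : Set K) (π : K), Dv I π →
    ∀ (g₀ κ : Matrix (Fin 3) (Fin 3) K) (v : Fin 3 → K) (k : ℤ), (∀ i, v i ∈ I) →
    AVS.GI I κ → ∃ z, Mk I π g₀ v (π ^ k • (g₀ * κ)) z

/-- MKU: uniqueness of the marks. -/
def MKUStmt : Prop :=
  ∀ (K : Type) [Field K] (I : Set K) (π : K), Dv I π →
    ∀ (g₀ g : Matrix (Fin 3) (Fin 3) K) (v z z' : Fin 3 → K), g₀.det ≠ 0 →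
    Mk I π g₀ v g z → Mk I π g₀ v g z' → ∀ i, (z i - z' i) / π ∈ I

/-- MKQ: equal marks come from equivalent pairs. -/
def MKQStmt : Prop :=
  ∀ (K : Type) [Field K] (I : Set K) (π : K), Dv I π →
    ∀ (g₀ g₁ g : Matrix (Fin 3) (Fin 3) K) (v v' z z' : Fin 3 → K) (r : K), g₀.det ≠ 0 →
    g₁.det ≠ 0 → r ≠ 0 → Mk I π g₀ v g z → Mk I π g₁ v' (r • g) z' →
    (∀ i, (z i - z' i) / π ∈ I) → Eq3 I π g₀ v g₁ v'

/-- MKR: equal marks and scalars. -/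
def MKRStmt : Prop :=
  ∀ (K : Type) [Field K] (I : Set K) (π : K), Dv I π →
    ∀ (g₀ g : Matrix (Fin 3) (Fin 3) K) (v z z' : Fin 3 → K) (r l l' : K), g₀.det ≠ 0 →
    AVS.UI I r → l ∈ I → l' ∈ I → (∀ i, v i ∈ I) → (∃ i, v i / π ∉ I) →
    Mk I π g₀ (l • v) g z → Mk I π g₀ (l' • v) (r • g) z' → (∀ i, (z i - z' i) / π ∈ I) →
    (l' - r * l) / π ∈ I

/-- MKG: the marks are good points. -/
def MKGStmt : Prop :=
  ∀ (K : Type) [Field K] (I : Set K) (π : K), Dv I π →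
    ∀ (c : Fin 10 → K) (g₀ g : Matrix (Fin 3) (Fin 3) K) (v z : Fin 3 → K) (l : K),
    AVS.UI I l → KP3 I π c g₀ v → Mk I π g₀ (l • v) g z → KP3 I π c g z

end Pool.AV3
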