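import Pool.Agent.H8.AV3.Stmts5

/-!
# Three-descent over `F(t)`, stage 3: finite fields, local solubility, the lower counting inequality
-/

set_option autoImplicit false

namespace Pool.AV3

open Polynomial Matrix Pool.AVR

/-- DSG: over an algebraically closed field, a cubic whose discriminant vanishes is singular. -/
def DSGStmt : Prop :=
  ∀ (K : Type) [Field K] [IsAlgClosed K], (2 : K) ≠ 0 → ∀ c : Fin 10 → K,
    dsc (Jc (2 : K)⁻¹ c) = 0 → ∃ v : Fin 3 → K, v ≠ 0 ∧ tev c v = 0 ∧ ∀ w, tder c v w = 0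

/-- CLN: cubics containing a line. -/
def CLNStmt : Prop :=
  ∀ (k : Type) [Field k], (2 : k) ≠ 0 → ∀ (τ : DualNumber k), 2 * τ = 1 →
    ∀ (c : Fin 10 → DualNumber k) (v w : Fin 3 → k), v ≠ 0 → (∀ r : k, w ≠ r • v) →
    tev (fun i => TrivSqZeroExt.fst (c i)) v = 0 →
    tder (fun i => TrivSqZeroExt.fst (c i)) v w = 0 →
    tder (fun i => TrivSqZeroExt.fst (c i)) w v = 0 →
    tev (fun i => TrivSqZeroExt.fst (c i)) w = 0 → dsc (Jc τ c) = 0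

/-- NDP: nodal reduction. -/
def NDPStmt : Prop :=
  ∀ (F : Type) [Field F] [Finite F], (2 : F) ≠ 0 → ∀ P : F[X], P.Monic → Irreducible P →
    ∀ c : Fin 10 → F[X], P ∣ dsc (Jc (hf F) c) → ¬ P ^ 2 ∣ dsc (Jc (hf F) c) →
      ∃ v, Good (md P c) v

/-- STF: stabilisers over an algebraically closed field. -/
def STFStmt : Prop :=
  ∀ (K : Type) [Field K] [IsAlgClosed K], (2 : K) ≠ 0 → ∀ f : K × K × K, dsc f ≠ 0 →
    ∀ c : Fin 10 → K, Cls f c → ∀ T : Finset (Matrix (Fin 3) (Fin 3) K),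
      (∀ g ∈ T, Eqv g c c) → (∀ g ∈ T, ∀ g' ∈ T, g ≠ g' → ∀ r : K, g' ≠ r • g) →
      T.card ≤ 81

/-- ORB: the orbit of a smooth cubic over a finite field is large. -/
def ORBStmt : Prop :=
  ∀ (k : Type) [Field k] [Finite k], (2 : k) ≠ 0 → ∀ c : Fin 10 → k,
    dsc (Jc (2 : k)⁻¹ c) ≠ 0 → Nat.card k ^ 9 ≤ 1944 * {c' : Fin 10 → k |
      ∃ (g : Matrix (Fin 3) (Fin 3) k) (l : k), IsUnit g.det ∧ l ≠ 0 ∧
        tsub c g = l • c'}.ncard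

/-- MED: few forms modulo `P²` have discriminant zero or no good point. -/
def MEDStmt : Prop :=
  ∀ (F : Type) [Field F] [Finite F], (2 : F) ≠ 0 → ∀ P : F[X], P.Monic → Irreducible P →
    {c : Fin 10 → AdjoinRoot (P ^ 2) | P ^ 2 ∣ dsc (Jc (hf F) fun i => AVS.lft (c i)) ∨
      gdk (md P fun i => AVS.lft (c i)) = 0}.ncard ≤ 4 * Nat.card F ^ (18 * P.natDegree)

/-- LNG: a smooth cubic over a large finite field has a good point. -/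
def LNGStmt : Prop :=
  ∀ (k : Type) [Field k] [Finite k], (2 : k) ≠ 0 → 7776 < Nat.card k → ∀ c : Fin 10 → k,
    dsc (Jc (2 : k)⁻¹ c) ≠ 0 → ∃ v, Good c v

/-- LSG: good points modulo large primes. -/
def LSGStmt : Prop :=
  ∀ (F : Type) [Field F] [Finite F], (2 : F) ≠ 0 → ∀ P : F[X], P.Monic → Irreducible P →
    7776 < Nat.card F ^ P.natDegree → ∀ c : Fin 10 → F[X], ¬ P ^ 2 ∣ dsc (Jc (hf F) c) →
      ∃ v, Good (md P c) v

/-- LSP: local solubility. -/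
def LSPStmt : Prop :=
  ∀ (F : Type) [Field F] [Finite F], (2 : F) ≠ 0 → ∀ (n α β : ℕ) (S : Finset F[X])
    (f : F[X] × F[X] × F[X]), f ∈ El F n → (∀ P ∈ S, P.Monic ∧ Irreducible P) →
    (∀ P : F[X], P.Monic → Irreducible P → P ∉ S →
      7776 < Nat.card F ^ P.natDegree ∧ ¬ P ^ 2 ∣ dsc f) →
    ∀ c ∈ VJ n (dv α β) f, (∀ P ∈ S, gdk (md P c) ≠ 0) →
    gdk (md X (cinf n (dv α β) c)) ≠ 0 → mp c ∈ SelSet f

/-- BAS: matrices which are invertible at all places, up to scalars. -/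
def BASStmt : Prop :=
  ∀ (F : Type) [Field F] (g : Matrix (Fin 3) (Fin 3) (RatFunc F)) (α β α' β' : ℕ),
    g.det ≠ 0 →
    (∀ P : F[X], P.Monic → Irreducible P → ∃ r : RatFunc F, r ≠ 0 ∧ AVS.GI (AVS.IP P) (r • g)) →
    (∃ r : RatFunc F, r ≠ 0 ∧
      AVS.GI (AVS.Iinf F) (r • (Dg (dv α β) * g * (Dg (dv α' β'))⁻¹))) →
    α = α' ∧ β = β' ∧ ∃ r : RatFunc F, r ≠ 0 ∧
      ∃ γ ∈ (G3 (dv α β) : Set (Matrix (Fin 3) (Fin 3) F[X])),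
        g = r • γ.map (algebraMap F[X] (RatFunc F))

/-- FBR: two forms of the same class with the same local lattices. -/
def FBRStmt : Prop :=
  ∀ (F : Type) [Field F], (2 : F) ≠ 0 → ∀ (n α β α' β' : ℕ) (S : Finset F[X])
    (c₀ : Fin 10 → RatFunc F) (c c' : Fin 10 → F[X])
    (g g' : Matrix (Fin 3) (Fin 3) (RatFunc F)), (∀ P ∈ S, P.Monic ∧ Irreducible P) →
    (∀ P : F[X], P.Monic → Irreducible P → P ∉ S → ¬ P ^ 2 ∣ dsc (Jc (hf F) c)) →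
    c ∈ Vd n (dv α β) → c' ∈ Vd n (dv α' β') → Eqv g c₀ (mp c) → Eqv g' c₀ (mp c') →
    (∀ P ∈ S, ∃ (κ : Matrix (Fin 3) (Fin 3) (RatFunc F)) (r : RatFunc F),
      AVS.GI (AVS.IP P) κ ∧ r ≠ 0 ∧ g' = r • (g * κ)) →
    (∃ (κ : Matrix (Fin 3) (Fin 3) (RatFunc F)) (r : RatFunc F),
      AVS.GI (AVS.Iinf F) κ ∧ r ≠ 0 ∧
        g' * (Dg (dv α' β'))⁻¹ = r • (g * (Dg (dv α β))⁻¹ * κ)) →
    α = α' ∧ β = β' ∧ ∃ r : RatFunc F, r ≠ 0 ∧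
      ∃ γ ∈ (G3 (dv α β) : Set (Matrix (Fin 3) (Fin 3) F[X])),
        g' = r • (g * γ.map (algebraMap F[X] (RatFunc F)))

/-- WL1: the lower counting inequality for one class. -/
def WL1Stmt : Prop :=
  ∀ (F : Type) [Field F] [Finite F], (2 : F) ≠ 0 → ∀ (n N : ℕ) (S : Finset F[X])
    (f : F[X] × F[X] × F[X]), f ∈ GdF n N S → 1 ≤ N → (∀ P ∈ S, P.Monic ∧ Irreducible P) →
    ∀ c₀ ∈ SelSet f, ((Nat.card F : ℝ) - 1) *
      ∑ α ∈ Finset.range (n + 1), ∑ β ∈ Finset.range (n + 1),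
        (∑ᶠ c ∈ ClS n α β f c₀, (∏ P ∈ S, (gdk (md P c) : ℝ)) *
          gdk (md X (cinf n (dv α β) c))) /
          (G3 (dv α β) : Set (Matrix (Fin 3) (Fin 3) F[X])).ncard ≤
      (∏ P ∈ S, Bw P N f) * Bw X N (AVS.finf n f)

/-- WLS: the lower counting inequality for one curve. -/
def WLSStmt : Prop :=
  ∀ (F : Type) [Field F] [Finite F], (2 : F) ≠ 0 → ∀ (n N A : ℕ) (S : Finset F[X])
    (f : F[X] × F[X] × F[X]), f ∈ GdF n N S → 1 ≤ N → A ≤ n →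
    (∀ P ∈ S, P.Monic ∧ Irreducible P) →
    (∀ P : F[X], P.Monic → Irreducible P → P ∉ S → 7776 < Nat.card F ^ P.natDegree) →
    Finite (Sel3 f) → ((Nat.card F : ℝ) - 1) *
      ∑ α ∈ Finset.range (A + 1), ∑ β ∈ Finset.range (A + 1),
        (∑ᶠ c ∈ {c | c ∈ VJ n (dv α β) f ∧ ¬ Tri f c}, WB3 n α β S N c) /
          (G3 (dv α β) : Set (Matrix (Fin 3) (Fin 3) F[X])).ncard ≤
      (Nat.card (Sel3 f) : ℝ) - 1

/-- FLD: bases adapted to a flag. -/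
def FLDStmt : Prop :=
  (∀ (F : Type) [Field F] (A B : Fin 3 → RatFunc F), A ≠ 0 → (∀ r : RatFunc F, B ≠ r • A) →
    ∃ (γ : Matrix (Fin 3) (Fin 3) F[X]) (s u r : RatFunc F), IsUnit γ.det ∧ s ≠ 0 ∧ r ≠ 0 ∧
      γ.map (algebraMap F[X] (RatFunc F)) *ᵥ (e1 : Fin 3 → RatFunc F) = s • A ∧
      γ.map (algebraMap F[X] (RatFunc F)) *ᵥ (![1, 0, 0] : Fin 3 → RatFunc F) =
        u • A + r • B) ∧
  ∀ (K : Type) [Field K] (I : Set K) (π : K), Dv I π → ∀ (A B : Fin 3 → K), A ≠ 0 →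
    (∀ r : K, B ≠ r • A) →
    ∃ (γ : Matrix (Fin 3) (Fin 3) K) (s u r : K), AVS.GI I γ ∧ s ≠ 0 ∧ r ≠ 0 ∧
      γ *ᵥ (e1 : Fin 3 → K) = s • A ∧ γ *ᵥ (![1, 0, 0] : Fin 3 → K) = u • A + r • B

/-- LFL: flexes at a place. -/
def LFLStmt : Prop :=
  ∀ (K : Type) [Field K] (I : Set K) (π : K), Dv I π → (2 : K) ≠ 0 → (2 : K)⁻¹ ∈ I →
    ∀ (c : Fin 10 → K) (v w : Fin 3 → K) (μ κ a : K), (∀ i, c i ∈ I) → v ≠ 0 →
    (∀ r : K, w ≠ r • v) → tev c v = 0 → tder c v w = 0 → tder c w v = 0 → tev c w = κ →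
    (∀ x : Fin 3 → K, tder c v x = μ * (crossProduct v w ⬝ᵥ x)) → a ≠ 0 →
    (∀ i, v i / a ∈ I) → (∃ i, AVS.UI I (v i / a)) → dsc (Jc (2 : K)⁻¹ c) ≠ 0 →
    ∃ y ∈ I, dsc (Jc (2 : K)⁻¹ c) ^ 2 = y * (κ * μ ^ 3 / a ^ 3)

/-- NTR: the trivial class is not represented by forms of small degree types. -/
def NTRStmt : Prop :=
  ∀ (F : Type) [Field F] [Finite F], (2 : F) ≠ 0 → ∀ (A N : ℕ) (S : Finset F[X]),
    (∀ P ∈ S, P.Monic ∧ Irreducible P) → ∃ n₀ : ℕ, ∀ n : ℕ, n₀ ≤ n →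
    ∀ f ∈ GdF (F := F) n N S, ∀ α β : ℕ, α ≤ A → β ≤ A → ∀ c ∈ VJ n (dv α β) f, ¬ Tri f c

end Pool.AV3
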