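import Pool.Agent.H8.AV3.Stmts6

/-!
# Three-descent over `F(t)`, stage 3: large primes, averages, and the final statement
-/

set_option autoImplicit false

namespace Pool.AV3

open Polynomial Matrix Pool.AVR

/-- DWP: the discriminant as a polynomial in the coefficient of `MXZ`. -/
def DWPStmt : Prop :=
  (∀ (R : Type) [CommRing R] (τ : R), 2 * τ = 1 → ∀ c : Fin 10 → R,
    (DW τ c).natDegree ≤ 9 ∧ (DW τ c).coeff 9 = -(τ ^ 4 * (c 0 * c 6 * c 9)) ∧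
    (DW τ c).coeff 8 =
      τ ^ 4 * (c 0 * c 3 * c 7 * c 9 + c 0 * c 5 * c 6 * c 8 + c 1 * c 2 * c 6 * c 9) ∧
    ∀ w : R, (DW τ c).eval w = dsc (Jc τ (Function.update c 4 w)) ∧
      DW τ (Function.update c 4 w) = DW τ c) ∧
  ∀ (F : Type) [Field F] (c : Fin 10 → F[X]) (m : ℕ), (∀ j, (c j).natDegree ≤ m) →
    ∀ i, ((DW (hf F) c).coeff i).natDegree ≤ 12 * m

/-- SQS: a squarefree specialisation. -/
def SQSStmt : Prop :=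
  ∀ (F : Type) [Field F], (2 : F) ≠ 0 → ∃ (K : Type) (_ : Field K) (_ : F →+* K)
    (c : Fin 10 → K), (DW (2 : K)⁻¹ c).natDegree = 9 ∧
      IsCoprime (DW (2 : K)⁻¹ c) (derivative (DW (2 : K)⁻¹ c))

/-- SQF: the discriminant is generically a squarefree polynomial in the coefficient of `MXZ`. -/
def SQFStmt : Prop :=
  ∀ (F : Type) [Field F] [Finite F], (2 : F) ≠ 0 → ∀ (α β : ℕ) (ε : ℝ), 0 < ε → ∃ n₀ : ℕ,
    ∀ n : ℕ, n₀ ≤ n → ({c : Fin 10 → F[X] | c ∈ Vd n (dv α β) ∧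
      ¬ IsCoprime ((DW (hf F) c).map (algebraMap F[X] (RatFunc F)))
        (derivative ((DW (hf F) c).map (algebraMap F[X] (RatFunc F))))}.ncard : ℝ) ≤
      ε * (Nat.card F : ℝ) ^ (10 * n + 10)

/-- TWO: two coefficients with a large common prime divisor are rare. -/
def TWOStmt : Prop :=
  ∀ (F : Type) [Field F] [Finite F], ∀ (α β C : ℕ) (ε : ℝ), 0 < ε → ∃ n₀ : ℕ,
    ∀ n : ℕ, n₀ ≤ n → ({c : Fin 10 → F[X] | c ∈ Vd n (dv α β) ∧ ∃ P : F[X], P.Monic ∧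
      Irreducible P ∧ n ≤ 2 * P.natDegree + C ∧ ∃ i j : Fin 10, i ≠ j ∧ P ∣ c i ∧
        P ∣ c j}.ncard : ℝ) ≤ ε * (Nat.card F : ℝ) ^ (10 * n + 10)

/-- PLM: values of a squarefree polynomial divisible by the square of a large prime are rare. -/
def PLMStmt : Prop :=
  ∀ (F : Type) [Field F] [Finite F], (2 : F) ≠ 0 → ∀ (C : ℕ) (ε : ℝ), 0 < ε → ∃ n₀ : ℕ,
    ∀ n : ℕ, n₀ ≤ n → ∀ D : F[X][X], D.natDegree ≤ C →
    (∀ i, (D.coeff i).natDegree ≤ C * (n + 1)) →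
    IsCoprime (D.map (algebraMap F[X] (RatFunc F)))
      (derivative (D.map (algebraMap F[X] (RatFunc F)))) →
    ({w : F[X] | w.natDegree ≤ n ∧ ∃ P : F[X], P.Monic ∧ Irreducible P ∧
      n ≤ 2 * P.natDegree + C ∧ P ^ 2 ∣ D.eval w ∧ ∃ i, ¬ P ∣ D.coeff i}.ncard : ℝ) ≤
      ε * (Nat.card F : ℝ) ^ (n + 1)

/-- TBL3: few discriminants are divisible by the square of a large prime. -/
def TBL3Stmt : Prop :=
  ∀ (F : Type) [Field F] [Finite F], (2 : F) ≠ 0 → ∀ (α β C : ℕ) (ε : ℝ), 0 < ε → ∃ n₀ : ℕ,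
    ∀ n : ℕ, n₀ ≤ n → ({c : Fin 10 → F[X] | c ∈ Vd n (dv α β) ∧ ∃ P : F[X], P.Monic ∧
      Irreducible P ∧ n ≤ 2 * P.natDegree + C ∧ P ^ 2 ∣ dsc (Jc (hf F) c)}.ncard : ℝ) ≤
      ε * (Nat.card F : ℝ) ^ (10 * n + 10)

/-- LVC: the local averages of the weights, lower bound. -/
def LVCStmt : Prop :=
  ∀ (F : Type) [Field F] [Finite F], (2 : F) ≠ 0 → ∀ (P : F[X]), P.Monic → Irreducible P →
    ∀ ε : ℝ, 0 < ε → ∃ N₀ : ℕ, ∀ N : ℕ, N₀ ≤ N →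
      (rhoF F P.natDegree - ε) * (Nat.card F : ℝ) ^ (10 * (N * P.natDegree)) ≤
        ∑ᶠ c : Fin 10 → AdjoinRoot (P ^ N), wb P N (fun i => AVS.lft (c i)) ∧
      ∑ᶠ c ∈ {c : Fin 10 → AdjoinRoot (P ^ N) |
          P ^ N ∣ dsc (Jc (hf F) fun i => AVS.lft (c i))}, wb P N (fun i => AVS.lft (c i)) ≤
        ε * (Nat.card F : ℝ) ^ (10 * (N * P.natDegree))

/-- MDT: primes of medium size. -/
def MDTStmt : Prop :=
  ∀ (F : Type) [Field F] [Finite F], (2 : F) ≠ 0 → ∀ (S : Finset F[X]),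
    (∀ P ∈ S, P.Monic ∧ Irreducible P) → ∃ N₀ : ℕ, ∀ N : ℕ, N₀ ≤ N → ∀ D n α β : ℕ,
      ∑ᶠ c ∈ {c : Fin 10 → F[X] | c ∈ Vd n (dv α β) ∧ ∃ P : F[X], P.Monic ∧ Irreducible P ∧
        P ∉ S ∧ D < P.natDegree ∧
        2 * P.natDegree + N * (∑ P ∈ S, P.natDegree + 1) + 2 * α + β ≤ n + 1 ∧
        P ^ 2 ∣ dsc (Jc (hf F) c)}, WB3 n α β S N c ≤
      2 / (Nat.card F : ℝ) ^ D * (Nat.card F : ℝ) ^ (10 * n + 10)

/-- AZ3: few forms with vanishing first coefficient of the Jacobian. -/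
def AZ3Stmt : Prop :=
  ∀ (F : Type) [Field F] [Finite F], (2 : F) ≠ 0 → ∀ (n α β : ℕ), 2 * α + β ≤ n + 1 →
    (Vd n (dv α β) : Set (Fin 10 → F[X])).Finite ∧
    {c : Fin 10 → F[X] | c ∈ Vd n (dv α β) ∧ (Jc (hf F) c).1 = 0}.ncard ≤
      2 * Nat.card F ^ (9 * n + 9)

/-- AVL3: the average of the weights over the good forms of one type, lower bound. -/
def AVL3Stmt : Prop :=
  ∀ (F : Type) [Field F] [Finite F], (2 : F) ≠ 0 → ∀ ε : ℝ, 0 < ε → ∃ D₀ : ℕ, ∀ D : ℕ,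
    D₀ ≤ D → ∀ S : Finset F[X], (∀ P : F[X], P ∈ S ↔ P.Monic ∧ Irreducible P ∧
      P.natDegree ≤ D) → ∃ N : ℕ, 1 ≤ N ∧ ∀ A : ℕ, ∃ n₀ : ℕ, ∀ n : ℕ, n₀ ≤ n →
      ∀ α β : ℕ, α ≤ A → β ≤ A →
        (rhoS S - ε) * (Nat.card F : ℝ) ^ (10 * n + 10) ≤
          ∑ᶠ c ∈ (GdC n α β N S : Set (Fin 10 → F[X])), WB3 n α β S N c

/-- SUE: summation over the curves, lower bound. -/
def SUEStmt : Prop :=
  ∀ (F : Type) [Field F] [Finite F], (2 : F) ≠ 0 → ∀ (n α β N : ℕ) (S : Finset F[X]),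
    α ≤ n → β ≤ n → (∀ P ∈ S, P.Monic ∧ Irreducible P) →
    (Nat.card F : ℝ) ^ (2 * n + 1) *
        ∑ᶠ c ∈ (GdC n α β N S : Set (Fin 10 → F[X])), WB3 n α β S N c ≤
      ∑ᶠ f ∈ GdF n N S, ∑ᶠ c ∈ VJ n (dv α β) f, WB3 n α β S N c

/-- GRX: the orders of the groups. -/
def GRXStmt : Prop :=
  ∀ (F : Type) [Field F] [Finite F],
    (G3 (dv 0 0) : Set (Matrix (Fin 3) (Fin 3) F[X])).ncard =
      (Nat.card F ^ 3 - 1) * (Nat.card F ^ 3 - Nat.card F) *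
        (Nat.card F ^ 3 - Nat.card F ^ 2) ∧
    (∀ m : ℕ, 1 ≤ m → (G3 (dv 0 m) : Set (Matrix (Fin 3) (Fin 3) F[X])).ncard =
      (Nat.card F ^ 2 - 1) * (Nat.card F ^ 2 - Nat.card F) *
        ((Nat.card F - 1) * Nat.card F ^ (2 * m + 2))) ∧
    (∀ m : ℕ, 1 ≤ m → (G3 (dv m 0) : Set (Matrix (Fin 3) (Fin 3) F[X])).ncard =
      (Nat.card F ^ 2 - 1) * (Nat.card F ^ 2 - Nat.card F) *
        ((Nat.card F - 1) * Nat.card F ^ (2 * m + 2))) ∧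
    ∀ α β : ℕ, 1 ≤ α → 1 ≤ β →
      (G3 (dv α β) : Set (Matrix (Fin 3) (Fin 3) F[X])).ncard =
        (Nat.card F - 1) ^ 3 * Nat.card F ^ (2 * α + 2 * β + 3)

/-- MTL: the main term, lower bound. -/
def MTLStmt : Prop :=
  ∀ (F : Type) [Field F] [Finite F], (2 : F) ≠ 0 → ∀ ε : ℝ, 0 < ε → ∃ A : ℕ, ∀ n : ℕ,
    (3 / ((1 - 1 / (Nat.card F : ℝ)) * (1 - 1 / (Nat.card F : ℝ) ^ 2) * rhoF F 1) - ε) *
      (Nat.card F : ℝ) ^ (12 * n + 3) ≤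
    ((Nat.card F : ℝ) - 1) * (∑ α ∈ Finset.range (A + 1), ∑ β ∈ Finset.range (A + 1),
      1 / ((G3 (dv α β) : Set (Matrix (Fin 3) (Fin 3) F[X])).ncard : ℝ)) *
      (Nat.card F : ℝ) ^ (12 * n + 11)

/-- ZE4: finite Euler products, lower bound. -/
def ZE4Stmt : Prop :=
  ∀ (F : Type) [Field F] [Finite F], ∀ S : Finset F[X], (∀ P ∈ S, P.Monic ∧ Irreducible P) →
    (1 - 1 / (Nat.card F : ℝ)) * (1 - 1 / (Nat.card F : ℝ) ^ 2) * rhoF F 1 ≤ rhoS S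

/-- LML3: the lower bound for the average. -/
def LML3Stmt : Prop :=
  ∀ (F : Type) [Field F] [Finite F], (2 : F) ≠ 0 → ∀ ε : ℝ, 0 < ε → ∃ N : ℕ, ∀ n : ℕ, N ≤ n →
    (4 - ε) * (El F n).ncard ≤ ∑ᶠ f ∈ El F n, (Nat.card (Sel3 f) : ℝ)

open Classical in
/-- FN3: the final statement. -/
def FN3Stmt : Prop :=
  ∀ (F : Type) [Field F] [Finite F], (2 : F) ≠ 0 →
    (∀ n : ℕ, ∀ f ∈ Ell F n, AddGroup.FG (EK f)) ∧
    (∀ n : ℕ, ∀ f ∈ El F n, Finite (Sel3 f) ∧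
      Nat.card (Mod3 (EK f)) ≤ Nat.card (Sel3 f) ∧
      3 ^ Module.finrank ℤ (EK f) ≤ Nat.card (Mod3 (EK f))) ∧
    (∀ n : ℕ, 1 ≤ n → (Fam F n).ncard = Nat.card F ^ (12 * n + 3) ∧
      {f ∈ Fam F n | f ∉ El F n}.ncard ≤ 3 * Nat.card F ^ (10 * n + 3)) ∧
    Filter.Tendsto
      (fun n : ℕ => (∑ᶠ f ∈ El F n, (Nat.card (Sel3 f) : ℝ)) / (El F n).ncard)
      Filter.atTop (nhds 4) ∧
    ∀ ε : ℝ, 0 < ε → ∃ N : ℕ, ∀ n : ℕ, N ≤ n →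
      ∑ᶠ f ∈ Ell F n, (Module.finrank ℤ (EK f) : ℝ) ≤ (7 / 6 + ε) * (Ell F n).ncard ∧
      (5 / 8 - ε) * (Ell F n).ncard ≤ {f ∈ Ell F n | Module.finrank ℤ (EK f) ≤ 1}.ncard

end Pool.AV3
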